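import Pool.Agent.H14.STV.Cev
import Pool.Agent.H66.D2.Apn

/-!
# The numbers of the windows, target of any kind

`apR_of`: as `apN_of`; the lower bound of the rows of the target is the one of the ball.
`cevR`: as `cevN`.
-/

set_option autoImplicit false

namespace Pool.STV

open Finset Real MvPolynomial
open Pool.Agent.H49.Ent Pool.Agent.H32.Dense Pool.STK Pool.KA Pool.KSAT Pool.K2S Pool.PB Pool.S6C
open Pool.GEN Pool.CHT Pool.CHX Pool.ISO Pool.D2R Pool.D2Z Pool.D2F Pool.AFT Pool.PKG Pool.TN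
open Pool.LBT (ThrOf)
open Pool.FLF (Fam.sub)
open Pool.PB.Trl (rt rt_mem t_rt)

/-- **The numbers of the windows** from the record and the event of the windows. -/
theorem apR_of {m : ℕ} {S : PCl m} {P P₂ : List (Fin m) × Fin m → ℝ → ℝ → ℝ} {θ θ₂ : ℝ}
    {c : ℕ → Fin m} {i : ℕ} {Pt : ℝ → ℝ → ℝ} {L T : ℕ → ℝ → ℝ → ℝ} {Sl : ℕ → ℝ} {kd : ℕ → Kd}
    {S₀ N : ℕ} {Al V : ℕ → ℝ} {S₂ N' : ℕ} {V' : ℕ → ℝ} {Eb e₂ K ε q t : ℝ}
    (R : RecR S P P₂ θ θ₂ c i Pt L T Sl kd S₀ N Al V S₂ N' V' Eb e₂ K ε q t) {y A' : ℝ}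
    (hy : 0 < y) (hεy : ε ≤ y / 4) (hAK : A' ≤ K) {N₁ : ℕ} {v : ℕ → ℝ}
    (hv : ∀ k ≤ N₁, -K ≤ v k ∧ v k ≤ A') (hm : ∀ k ≤ N₁, ∃ j < N, Al j = A' ∧ V j = v k)
    {Sc : ℕ → Prop} (hsc : ∀ l < i, Sc l → kd l = .sta) {J D Dr M : ℕ} {F : Fam m J}
    (hJ : 2 ≤ y * (q * J)) {e h pp : ℕ → ℕ} {z g gc gT g₀ : ℕ → ℕ → ℕ} {κ : ℝ} {B : F.Ω → Prop}
    {G : ℕ → PtT F → ℕ → MvPolynomial (Option (Fin m)) ℝ}
    {H : ℕ → LnT F → ℕ → MvPolynomial (Option (Fin m)) ℝ}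
    {Th : ℕ → PtT F → ℕ → MvPolynomial (Option (Fin m)) ℝ}
    {TH : ℕ → LnT F → ℕ → MvPolynomial (Option (Fin m)) ℝ}
    {Gt : ℕ → PtT F → MvPolynomial (Option (Fin m)) ℝ}
    {Ht : ℕ → LnT F → MvPolynomial (Option (Fin m)) ℝ}
    (E : CEv F c i D Dr N₁ M ⌊(t + A' * q) * J⌋₊ ⌊y * q * J⌋₊ Sc
      (fun k => ⌊(t + v k * q) * J⌋₊) e h pp z g gc gT g₀ κ B G H Th TH Gt Ht)
    (hn : ∀ k ≤ N₁, ((e k : ℝ) ≤ (Eb + y * q) * J ∧ (h k : ℝ) ≤ y * q * J) ∧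
      (L i (t + A' * q) (t + v k * q) * J - y * q * J ≤ pp k ∧
        (pp k : ℝ) ≤ L i (t + A' * q) (t + v k * q) * J) ∧
      (∀ l ≤ i, |(g₀ k l : ℝ) - L l (t + v k * q) (t + v k * q) * J| ≤ y * q * J ∧
        |(g k l : ℝ) - L l (t + v k * q) (t + v k * q) * J| ≤ y * q * J) ∧
      ∀ l < i, Sc l → |(gT k l : ℝ) - L l (t + A' * q) (t + v k * q) * J| ≤ y * q * J) :
    (∃ pf : ℕ → ℕ, ApN i N₁ J ⌊(t + A' * q) * J⌋₊ ⌊y * q * J⌋₊ Sc (fun k => ⌊(t + v k * q) * J⌋₊)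
      e pf g gc gT g₀ (q * J) y (t * J) (Eb * J) K A' v Sl (fun l => L l t t * J)) ∧
    ∀ k ≤ N₁, L i t t * J + Sl i * v k * (q * J) - 4 * (y * (q * J)) ≤ pp k := by
  have hq := R.q0
  have hJ0 : (0 : ℝ) ≤ J := Nat.cast_nonneg J
  have hU0 : 0 ≤ q * J := by positivity
  have hyU : y * q * J = y * (q * J) := by ring
  have hUpos : 0 < q * J := by
    rcases hU0.eq_or_lt with h1 | h1
    · rw [← h1, mul_zero] at hJ
      linarith
    · exact h1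
  have hεU : ε * (q * J) ≤ y / 4 * (q * J) := mul_le_mul_of_nonneg_right hεy hU0
  have hKq : ∀ x : ℝ, x ≤ K → x * q ≤ K * q := fun x hx => mul_le_mul_of_nonneg_right hx hq.le
  have hKq' : ∀ x : ℝ, -K ≤ x → -(K * q) ≤ x * q := fun x hx => by
    have := mul_le_mul_of_nonneg_right hx hq.le
    linarith
  have ht0 := R.t0
  have ht1 := R.t1
  have hx0 : ∀ k ≤ N₁, 0 ≤ (t + v k * q) * J := fun k hk => by
    have := hKq' _ (hv k hk).1
    have h1 : 0 ≤ t + v k * q := by linarith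
    positivity
  have hvA : ∀ k ≤ N₁, v k * q ≤ A' * q := fun k hk => mul_le_mul_of_nonneg_right (hv k hk).2 hq.le
  have hA0 : 0 ≤ (t + A' * q) * J := by
    have h1 := hx0 0 (Nat.zero_le _)
    have h2 := hvA 0 (Nat.zero_le _)
    have h3 : (t + v 0 * q) * J ≤ (t + A' * q) * J :=
      mul_le_mul_of_nonneg_right (by linarith) hJ0
    linarith
  have hbx : ∀ k ≤ N₁, |t + v k * q - t| ≤ K * q := fun k hk => by
    have h1 := hKq' _ (hv k hk).1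
    have h2 := hvA k hk
    have h3 := hKq _ hAK
    rw [abs_le]
    constructor <;> linarith
  have hLd : ∀ k ≤ N₁, ∀ l ≤ i, L l t t * J + Sl l * v k * (q * J) - y / 4 * (q * J) ≤
      L l (t + v k * q) (t + v k * q) * J ∧ L l (t + v k * q) (t + v k * q) * J ≤
      L l t t * J + Sl l * v k * (q * J) + y / 4 * (q * J) := by
    intro k hk l hl
    have h1 := abs_le.1 (R.dL l hl _ (hbx k hk))
    have h2 := mul_le_mul_of_nonneg_right h1.1 hJ0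
    have h3 := mul_le_mul_of_nonneg_right h1.2 hJ0
    constructor <;> nlinarith
  have hww : ∀ k ≤ N₁, t * J + v k * (q * J) - 1 ≤ (⌊(t + v k * q) * J⌋₊ : ℝ) ∧
      (⌊(t + v k * q) * J⌋₊ : ℝ) ≤ t * J + v k * (q * J) := fun k hk => by
    have h1 := Nat.floor_le (hx0 k hk)
    have h2 := Nat.lt_floor_add_one ((t + v k * q) * J)
    constructor <;> nlinarith
  have hAA : t * J + A' * (q * J) - 1 ≤ (⌊(t + A' * q) * J⌋₊ : ℝ) ∧
      (⌊(t + A' * q) * J⌋₊ : ℝ) ≤ t * J + A' * (q * J) := by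
    have h1 := Nat.floor_le hA0
    have h2 := Nat.lt_floor_add_one ((t + A' * q) * J)
    constructor <;> nlinarith
  have hyU0 : 0 ≤ y * q * J := by positivity
  have hcl := Nat.floor_le hyU0
  have hcl' := Nat.lt_floor_add_one (y * q * J)
  have hwA : ∀ k ≤ N₁, ⌊(t + v k * q) * J⌋₊ ≤ ⌊(t + A' * q) * J⌋₊ := fun k hk =>
    Nat.floor_le_floor (mul_le_mul_of_nonneg_right (by linarith [hvA k hk]) hJ0)
  have hb : ∀ k ≤ N₁, ∀ l ≤ i, L l t t * J + Sl l * v k * (q * J) - 2 * (y * (q * J)) ≤ g k l ∧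
      (g k l : ℝ) ≤ L l t t * J + Sl l * v k * (q * J) + 2 * (y * (q * J)) := fun k hk l hl => by
    have h1 := abs_le.1 ((hn k hk).2.2.1 l hl).2
    have h2 := hLd k hk l hl
    rw [hyU] at h1
    constructor <;> nlinarith
  refine ⟨⟨fun k => ⌈L i t t * J + Sl i * v k * (q * J) + 2 * (A' - v k) * (q * J) -
    4 * (y * (q * J))⌉₊,
    { U0 := hUpos
      y0 := hy
      yU := hJ
      cl1 := by rw [← hyU]; exact hcl
      cl2 := by rw [← hyU]; linarith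
      AJ := E.AJ
      A1 := hAA.1
      A2 := hAA.2
      w1 := hww
      wA := hwA
      wm := fun k hk k' hk' h1 => Nat.floor_le_floor (mul_le_mul_of_nonneg_right (by
        have := mul_le_mul_of_nonneg_right h1 hq.le
        linarith) hJ0)
      ga := fun k hk l hl => ?_
      gb := hb
      gd := fun k hk l hl => ?_
      ng := E.ng
      gr := fun k hk l hl hs => E.t_rg hk hl hs
      gs := fun k hk l hl hs => ?_
      pa := fun k hk => Nat.le_ceil _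
      lo := fun k hk l hl => ?_
      ro := fun l hl => ?_
      ee := fun k hk => ?_
      sl := RecR.sl1 R }⟩, fun k hk => ?_⟩
  · have h1 := abs_le.1 ((hn k hk).2.2.1 l hl).1
    have h2 := hLd k hk l hl
    rw [hyU] at h1
    constructor <;> nlinarith
  · obtain ⟨-, -, h3, h4⟩ := E.ng k hk l hl
    have h5 := hb k hk l hl
    have h6 := hww k hk
    have h7 : ((⌊(t + A' * q) * J⌋₊ - ⌊(t + v k * q) * J⌋₊ : ℕ) : ℝ) =
        ⌊(t + A' * q) * J⌋₊ - ⌊(t + v k * q) * J⌋₊ := by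
      rw [Nat.cast_sub (hwA k hk)]
    have h8 : (g k l : ℝ) + ((⌊(t + A' * q) * J⌋₊ - ⌊(t + v k * q) * J⌋₊ : ℕ) : ℝ) ≤
        gc k l + ⌊y * q * J⌋₊ := by exact_mod_cast h3
    have h9 : (gc k l : ℝ) ≤ g k l + ((⌊(t + A' * q) * J⌋₊ - ⌊(t + v k * q) * J⌋₊ : ℕ) : ℝ) +
        ⌊y * q * J⌋₊ := by exact_mod_cast h4
    rw [h7] at h8 h9
    rw [hyU] at hcl hcl' h8 h9
    constructor <;> linarith
  · have h1 := abs_le.1 ((hn k hk).2.2.2 l hl hs)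
    rw [hyU] at h1
    have hkd := R.kd l hl
    rw [hsc l hl hs] at hkd
    obtain ⟨-, hkd⟩ := hkd
    have hvA' := hvA k hk
    have hK1 := hKq' _ (hv k hk).1
    have hK2 := hKq _ hAK
    have h2 := hkd (t + A' * q) (t + v k * q) (by linarith) (by linarith) (by linarith)
    have h3 := (R.lawL l hl.le).mono_w (t + A' * q) (t + v k * q) (t + A' * q)
      (by linarith) (by linarith) le_rfl (by linarith)
    have h4 := abs_le.1 (R.dL l hl.le (t + A' * q) (by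
      rw [abs_le]
      constructor <;> linarith))
    have h5 := mul_le_mul_of_nonneg_right h2 hJ0
    have h6 := mul_le_mul_of_nonneg_right h3 hJ0
    have h7 := mul_le_mul_of_nonneg_right h4.1 hJ0
    have h8 := mul_le_mul_of_nonneg_right h4.2 hJ0
    constructor <;> nlinarith
  · obtain ⟨j, hj, -, hj2⟩ := hm k hk
    have hK1 := hKq' _ (hv k hk).1
    have hvA' := hvA k hk
    have hK2 := hKq _ hAK
    have h2 := RecR.lowL R (x := v k) (Or.inl ⟨j, hj, hj2⟩) (by linarith) (by linarith) l hl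
    have h3 := hLd k hk l hl
    have h4 := mul_le_mul_of_nonneg_right h2 hJ0
    have h5 := mul_le_mul_of_nonneg_right ht0.le hJ0
    nlinarith
  · have h1 := R.room l hl (t + K * q) (by
      rw [add_sub_cancel_left, abs_of_nonneg (by
        have := hKq' _ (hv 0 (Nat.zero_le _)).1
        have h3 := hvA 0 (Nat.zero_le _)
        have h2 := hKq _ hAK
        linarith)])
    have h2 := abs_le.1 (R.dL l hl (t + K * q) (by
      rw [add_sub_cancel_left, abs_of_nonneg (by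
        have := hKq' _ (hv 0 (Nat.zero_le _)).1
        have h3 := hvA 0 (Nat.zero_le _)
        have h2 := hKq _ hAK
        linarith)]))
    have h3 := mul_le_mul_of_nonneg_right h1.le hJ0
    have h4 := mul_le_mul_of_nonneg_right h2.1 hJ0
    nlinarith
  · have h1 := (hn k hk).1.1
    nlinarith
  · have h1 := (hn k hk).2.1.1
    rw [hyU] at h1
    have hvA' := hvA k hk
    have hK1 := hKq' _ (hv k hk).1
    have hK2 := hKq _ hAK
    have h3 := (R.lawL i le_rfl).mono_a (t + v k * q) (t + A' * q) (t + v k * q)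
      (by linarith) le_rfl (by linarith) (by linarith)
    have h4 := hLd k hk i le_rfl
    have h6 := mul_le_mul_of_nonneg_right h3 hJ0
    linarith

/-- **The event of a static cell with its numbers.** -/
theorem cevR (m i S₂ : ℕ) (hi : 1 ≤ i) (hi3 : i ≤ 3) (hS₂ : 1 ≤ S₂) : ∃ D : ℕ, 1 ≤ D ∧
    ∀ Dr : ℕ, D ≤ Dr → ∀ (Sl : ℕ → ℝ) (y gp : ℝ), 0 < y → y ≤ 1 / 8 → 0 < gp →
    (∀ l, 1 ≤ l → l ≤ 2 → l < i → 1 < Sl l) → (i = 3 → Sl 0 < Sl 1 ∧ Sl 0 < Sl 2) →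
    ∃ (n₀ : ℕ) (s ε₀ : ℝ), 1 ≤ n₀ ∧ 0 < s ∧ (n₀ + 1) * s ≤ gp ∧ 0 < ε₀ ∧
    ∀ {S : PCl m} {P P₂ : List (Fin m) × Fin m → ℝ → ℝ → ℝ} {θ θ₂ : ℝ} {c : ℕ → Fin m}
    {Pt : ℝ → ℝ → ℝ} {L T : ℕ → ℝ → ℝ → ℝ} {kd : ℕ → Kd} {S₀ N : ℕ} {Al V : ℕ → ℝ} {N' : ℕ}
    {V' : ℕ → ℝ} {Eb e₂ K ε q t : ℝ},
    RecR S P P₂ θ θ₂ c i Pt L T Sl kd S₀ N Al V S₂ N' V' Eb e₂ K ε q t → S₀ ≤ S₂ → 0 ≤ ε →
    ε ≤ ε₀ → 1 ≤ K → ∀ (A' r' : ℝ) (N₁ M : ℕ) (v : ℕ → ℝ) (Sc : ℕ → Prop), A' ≤ K → 0 < r' →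
    (∀ k ≤ N₁, -K + 1 ≤ v k ∧ v k + gp ≤ A') → (∀ k ≤ N₁, ∃ j < N, Al j = A' ∧ V j = v k) →
    (∀ k ≤ N₁, ∀ j, 1 ≤ j → j ≤ n₀ → ∃ j' < N', V' j' = v k + j * s) →
    (∀ l < i, ¬ Sc l → kd l = .one ∨ kd l = .thin) → (∀ l < i, Sc l → kd l = .sta) →
    ∃ K₁ : ℝ, 0 < K₁ ∧ ∀ κ : ℝ, 0 < κ → Bas S (fun J F A₀ =>
      ∀ (w : ℕ → ℕ) (A cl : ℕ), (∀ k, w k = ⌊(t + v k * q) * J⌋₊) → A = ⌊(t + A' * q) * J⌋₊ →
      cl = ⌊y * q * J⌋₊ → ∀ z : ℕ → ℕ → ℕ,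
      (∀ k ≤ N₁, ∀ p ≤ M, r' * (q * J) ≤ z k p ∧ z k p + w k ≤ A) →
      ∃ (B : F.Ω → Prop) (e h pp : ℕ → ℕ) (g gc gT g₀ : ℕ → ℕ → ℕ)
        (G : ℕ → PtT F → ℕ → MvPolynomial (Option (Fin m)) ℝ)
        (H : ℕ → LnT F → ℕ → MvPolynomial (Option (Fin m)) ℝ)
        (Th : ℕ → PtT F → ℕ → MvPolynomial (Option (Fin m)) ℝ)
        (TH : ℕ → LnT F → ℕ → MvPolynomial (Option (Fin m)) ℝ)
        (Gt : ℕ → PtT F → MvPolynomial (Option (Fin m)) ℝ)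
        (Ht : ℕ → LnT F → MvPolynomial (Option (Fin m)) ℝ), Sub B A₀ ∧
        Pe F.p A₀ ≤ K₁ * Pe F.p B ∧
        CEv F c i D Dr N₁ M A cl Sc w e h pp z g gc gT g₀ κ B G H Th TH Gt Ht ∧
        (∃ pf : ℕ → ℕ, ApN i N₁ J A cl Sc w e pf g gc gT g₀ (q * J) y (t * J) (Eb * J) K A' v Sl
          (fun l => L l t t * J)) ∧
        ∀ k ≤ N₁, L i t t * J + Sl i * v k * (q * J) - 4 * (y * (q * J)) ≤ pp k) := by
  obtain ⟨D, hD, hcev⟩ := RecR.cev m i S₂ hi hi3 hS₂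
  refine ⟨D, hD, ?_⟩
  intro Dr hDr Sl y gp hy0 hy1 hgp hs1 hs3
  obtain ⟨n₀, s, ε₀, hn₀, hs, hns, hε₀, hcev⟩ := hcev Dr hDr Sl y gp hy0 hy1 hgp hs1 hs3
  refine ⟨n₀, s, min ε₀ (y / 4), hn₀, hs, hns, lt_min hε₀ (by positivity), ?_⟩
  intro S P P₂ θ θ₂ c Pt L T kd S₀ N Al V N' V' Eb e₂ K ε q t R hSS hε hεε hK A' r' N₁ M v Sc hAK hr'
    hv hm hch hSc hst
  obtain ⟨K₁, hK₁, hcev⟩ := hcev R hSS hε (hεε.trans (min_le_left _ _)) hK A' r' N₁ M v Sc hAK hr'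
    hv hm hch hSc
  refine ⟨K₁, hK₁, fun κ hκ => ?_⟩
  have hq := R.q0
  have hyq : 0 < y * q := mul_pos hy0 hq
  obtain ⟨J₁, hJ₁⟩ := exists_nat_ge (2 / (y * q))
  refine Bas.mono J₁ (hcev κ hκ) ?_
  rintro J hJ F A₀ hA w A cl hw hA' hcl z hz
  have hw' : w = fun k => ⌊(t + v k * q) * J⌋₊ := funext hw
  subst hw' hA' hcl
  have hJR : (J₁ : ℝ) ≤ J := by exact_mod_cast hJ
  have hyU : 2 ≤ y * (q * J) := by
    have h4 := hJ₁.trans hJR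
    rw [div_le_iff₀ hyq] at h4
    linarith only [h4]
  obtain ⟨B, e, h, pp, g, gc, gT, g₀, G, H, Th, TH, Gt, Ht, hBA, hBP, E, hnum⟩ := hA z
    fun k hk p hp => by
      obtain ⟨h1, h2⟩ := hz k hk p hp
      refine ⟨?_, Nat.le_sub_of_add_le h2⟩
      have : r' * q * J = r' * (q * J) := by ring
      rw [this]
      exact h1
  have hap := apR_of R hy0 (hεε.trans (min_le_right _ _)) hAK (N₁ := N₁) (v := v)
    (fun k hk => ⟨by linarith only [(hv k hk).1], by linarith only [(hv k hk).2, hgp]⟩)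
    hm (Sc := Sc) hst hyU E hnum
  exact ⟨B, e, h, pp, g, gc, gT, g₀, G, H, Th, TH, Gt, Ht, hBA, hBP, E, hap⟩

end Pool.STV
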