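import Pool.Agent.H14.STV.Win

/-!
# The event of a static cell from the record, target of any kind

`RecR.cev`: as `RecQ.cev`.
-/

set_option autoImplicit false

namespace Pool.STV

open Finset Real MvPolynomial
open Pool.Agent.H49.Ent Pool.Agent.H32.Dense Pool.STK Pool.KA Pool.KSAT Pool.K2S Pool.PB Pool.S6C
open Pool.GEN Pool.CHT Pool.CHX Pool.D2F Pool.D2R
open Pool.LBT (ThrOf)
open Pool.LEV (Law)
open Pool.F5
open Pool.TN (CEv)
open Pool.FLF (Fam.sub)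
open Pool.PKG (RecQ PtI KdQ Kd)
open Pool.ISO (lvN dig)

/-- **The event of a static cell from the record.** Each main window `v k` has the chain windows
`v k + j s`, `1 ≤ j ≤ n₀`; the loss is `y` in units of `q`. -/
theorem RecR.cev (m i S₂ : ℕ) (hi : 1 ≤ i) (hi3 : i ≤ 3) (hS₂ : 1 ≤ S₂) : ∃ D : ℕ, 1 ≤ D ∧
    ∀ Dr : ℕ, D ≤ Dr → ∀ (Sl : ℕ → ℝ) (y gp : ℝ), 0 < y → y ≤ 1 / 8 → 0 < gp →
    (∀ l, 1 ≤ l → l ≤ 2 → l < i → 1 < Sl l) → (i = 3 → Sl 0 < Sl 1 ∧ Sl 0 < Sl 2) →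
    ∃ (n₀ : ℕ) (s ε₀ : ℝ), 1 ≤ n₀ ∧ 0 < s ∧ (n₀ + 1) * s ≤ gp ∧ 0 < ε₀ ∧
    ∀ {S : PCl m} {P P₂ : List (Fin m) × Fin m → ℝ → ℝ → ℝ} {θ θ₂ : ℝ} {c : ℕ → Fin m}
    {Pt : ℝ → ℝ → ℝ} {L T : ℕ → ℝ → ℝ → ℝ} {kd : ℕ → Kd} {S₀ N : ℕ} {A V : ℕ → ℝ} {N' : ℕ}
    {V' : ℕ → ℝ} {Eb e₂ K ε q t : ℝ},
    RecR S P P₂ θ θ₂ c i Pt L T Sl kd S₀ N A V S₂ N' V' Eb e₂ K ε q t → S₀ ≤ S₂ → 0 ≤ ε →
    ε ≤ ε₀ → 1 ≤ K → ∀ (A' r' : ℝ) (N₁ M : ℕ) (v : ℕ → ℝ) (Sc : ℕ → Prop), A' ≤ K → 0 < r' →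
    (∀ k ≤ N₁, -K + 1 ≤ v k ∧ v k + gp ≤ A') → (∀ k ≤ N₁, ∃ j < N, A j = A' ∧ V j = v k) →
    (∀ k ≤ N₁, ∀ j, 1 ≤ j → j ≤ n₀ → ∃ j' < N', V' j' = v k + j * s) →
    (∀ l < i, ¬ Sc l → kd l = .one ∨ kd l = .thin) →
    ∃ K₁ : ℝ, 0 < K₁ ∧ ∀ κ : ℝ, 0 < κ → Bas S (fun J F A₀ =>
      ∀ z : ℕ → ℕ → ℕ, (∀ k ≤ N₁, ∀ p ≤ M, r' * q * J ≤ z k p ∧
        z k p ≤ ⌊(t + A' * q) * J⌋₊ - ⌊(t + v k * q) * J⌋₊) →
      ∃ (B : F.Ω → Prop) (e h pp : ℕ → ℕ) (g gc gT g₀ : ℕ → ℕ → ℕ)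
        (G : ℕ → PtT F → ℕ → MvPolynomial (Option (Fin m)) ℝ)
        (H : ℕ → LnT F → ℕ → MvPolynomial (Option (Fin m)) ℝ)
        (Th : ℕ → PtT F → ℕ → MvPolynomial (Option (Fin m)) ℝ)
        (TH : ℕ → LnT F → ℕ → MvPolynomial (Option (Fin m)) ℝ)
        (Gt : ℕ → PtT F → MvPolynomial (Option (Fin m)) ℝ)
        (Ht : ℕ → LnT F → MvPolynomial (Option (Fin m)) ℝ), Sub B A₀ ∧
        Pe F.p A₀ ≤ K₁ * Pe F.p B ∧
        CEv F c i D Dr N₁ M ⌊(t + A' * q) * J⌋₊ ⌊y * q * J⌋₊ Sc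
          (fun k => ⌊(t + v k * q) * J⌋₊) e h pp z g gc gT g₀ κ B G H Th TH Gt Ht ∧
        ∀ k ≤ N₁, ((e k : ℝ) ≤ (Eb + y * q) * J ∧ (h k : ℝ) ≤ y * q * J) ∧
          (L i (t + A' * q) (t + v k * q) * J - y * q * J ≤ pp k ∧
            (pp k : ℝ) ≤ L i (t + A' * q) (t + v k * q) * J) ∧
          (∀ l ≤ i, |(g₀ k l : ℝ) - L l (t + v k * q) (t + v k * q) * J| ≤ y * q * J ∧
            |(g k l : ℝ) - L l (t + v k * q) (t + v k * q) * J| ≤ y * q * J) ∧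
          ∀ l < i, Sc l → |(gT k l : ℝ) - L l (t + A' * q) (t + v k * q) * J| ≤ y * q * J) := by
  obtain ⟨D, hD, hwin⟩ := RecR.wins m i S₂ hi hS₂
  refine ⟨D, hD, fun Dr hDr => ?_⟩
  obtain ⟨C, CB, hC, hCB, hwin⟩ := hwin Dr hDr
  obtain ⟨C₂, hC₂, hnat⟩ := natb_list m D i hD hi hi3
  obtain ⟨C₃, hC₃, hcev⟩ := wins_cev m D i hD
  have hC₂R : (1 : ℝ) ≤ C₂ := by exact_mod_cast hC₂
  have hC₃R : (1 : ℝ) ≤ C₃ := by exact_mod_cast hC₃
  intro Sl y gp hy hy1 hgp hs1 hs3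
  obtain ⟨n₀, j₁, s, ζ, υ, hj1, hjn, hs, hζ, hυ, hns, hloss, hζy, hnum⟩ :=
    chain_num hy hgp hC₂R hs1 hs3
  obtain ⟨y₁, hy₁⟩ : ∃ y₁ : ℝ, y₁ = ζ / (4 * (C₂ * CB * C * (C₃ + 1))) := ⟨_, rfl⟩
  have hden : (1 : ℝ) ≤ C₂ * CB * C * (C₃ + 1) :=
    one_le_mul_of_one_le_of_one_le (one_le_mul_of_one_le_of_one_le
      (one_le_mul_of_one_le_of_one_le hC₂R hCB) hC) (by linarith)
  have hy₁0 : 0 < y₁ := by rw [hy₁]; positivity
  have hy₁ζ : 4 * (C₂ * CB * C * (C₃ + 1)) * y₁ = ζ := by rw [hy₁]; field_simp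
  have hbd : ∀ x : ℝ, 0 ≤ x → x ≤ C₂ * CB * C * (C₃ + 1) → 4 * (x * y₁) ≤ ζ := by
    intro x hx hxx
    rw [← hy₁ζ]
    nlinarith
  have hCB0 : 0 ≤ CB := by linarith
  have hC0 : 0 ≤ C := by linarith
  have hb1 : 4 * (C * y₁) ≤ ζ := hbd C hC0 (by
    have : 1 * 1 * C * 1 ≤ C₂ * CB * C * (C₃ + 1) := by gcongr; linarith
    linarith)
  have hb2 : 4 * ((C₂ * CB) * y₁) ≤ ζ := hbd _ (by positivity) (by
    have : C₂ * CB * 1 * 1 ≤ C₂ * CB * C * (C₃ + 1) := by gcongr; linarith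
    linarith)
  have hb3 : 4 * (C₃ * y₁) ≤ ζ := hbd _ (by positivity) (by
    have : 1 * 1 * 1 * C₃ ≤ C₂ * CB * C * (C₃ + 1) := by gcongr; linarith
    linarith)
  have hb0 : 4 * y₁ ≤ ζ := by linarith [hbd 1 (by norm_num) hden]
  obtain ⟨ε₀, hε₀⟩ : ∃ ε₀ : ℝ, ε₀ = y₁ / (16 * (C * C₂)) := ⟨_, rfl⟩
  have hε₀0 : 0 < ε₀ := by rw [hε₀]; positivity
  have hε₀e : 16 * (C * C₂) * ε₀ = y₁ := by rw [hε₀]; field_simp
  refine ⟨n₀, s, ε₀, by omega, hs, hns, hε₀0, ?_⟩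
  intro S P P₂ θ θ₂ c Pt L T kd S₀ N A V N' V' Eb e₂ K ε q t R hSS hε hεε hK A' r' N₁ M v Sc hAK
    hr' hv hmn hch hSc
  have hq := R.q0
  -- the small number
  have hε1 : 4 * (C * ε) ≤ y₁ := by
    have h1 : C * ε ≤ C * ε₀ := mul_le_mul_of_nonneg_left hεε hC0
    have h2 : C * ε₀ ≤ C * C₂ * ε₀ := by
      refine mul_le_mul_of_nonneg_right ?_ hε₀0.le
      nlinarith
    nlinarith
  have hε2 : 16 * (C₂ * ε) ≤ ζ := by
    have h1 : C₂ * ε ≤ C₂ * ε₀ := mul_le_mul_of_nonneg_left hεε (by linarith)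
    have h2 : C₂ * ε₀ ≤ C * C₂ * ε₀ := by
      refine mul_le_mul_of_nonneg_right ?_ hε₀0.le
      nlinarith
    nlinarith
  obtain ⟨hn1, hn2, hn3⟩ := hnum ε hε hε2
  -- the windows
  obtain ⟨N₂, hN₂⟩ : ∃ N₂ : ℕ, N₂ = N₁ + (N₁ + 1) * n₀ := ⟨_, rfl⟩
  obtain ⟨w, hw⟩ : ∃ w : ℕ → ℝ, w = vch N₁ n₀ s v := ⟨_, rfl⟩
  have hwlo : ∀ k ≤ N₁, w k = v k := fun k hk => by rw [hw]; exact vch_lo hk
  have hwf : ∀ k ≤ N₁, ∀ j ≤ n₀, w (fch N₁ n₀ k j) = v k + j * s := fun k hk j hj => by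
    rw [hw]
    exact vch_fch hk hj
  have hNN : N₁ ≤ N₂ := by omega
  have hcase : ∀ u ≤ N₂, (u ≤ N₁ ∧ w u = v u) ∨ ∃ k j, k ≤ N₁ ∧ 1 ≤ j ∧ j ≤ n₀ ∧
      fch N₁ n₀ k j = u ∧ w u = v k + j * s := by
    intro u hu
    rcases Nat.lt_or_ge N₁ u with h | h
    · obtain ⟨k, j, k1, k2, k3, k4⟩ := fch_ex (n₀ := n₀) (by omega) (by omega) h
      exact Or.inr ⟨k, j, k1, k2, k3, k4, by rw [← k4]; exact hwf k k1 j k3⟩
    · exact Or.inl ⟨h, hwlo u h⟩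
  have hwb : ∀ u ≤ N₂, -K + 1 ≤ w u ∧ w u + s ≤ A' := by
    intro u hu
    rcases hcase u hu with ⟨h1, h2⟩ | ⟨k, j, k1, k2, k3, k4, k5⟩
    · rw [h2]
      obtain ⟨h3, h4⟩ := hv u h1
      refine ⟨h3, ?_⟩
      have : s ≤ (n₀ + 1) * s := le_mul_of_one_le_left hs.le (by
        have : (0 : ℝ) ≤ n₀ := Nat.cast_nonneg _
        linarith)
      linarith
    · rw [k5]
      obtain ⟨h3, h4⟩ := hv k k1
      have h5 : (j : ℝ) * s ≤ n₀ * s := mul_le_mul_of_nonneg_right (by exact_mod_cast k3) hs.le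
      have h6 : 0 ≤ (j : ℝ) * s := by positivity
      constructor <;> linarith
  have hrec : ∀ u ≤ N₂, (∃ j < N, A j = A' ∧ V j = w u) ∨ ∃ j < N', V' j = w u := by
    intro u hu
    rcases hcase u hu with ⟨h1, h2⟩ | ⟨k, j, k1, k2, k3, k4, k5⟩
    · rw [h2]
      exact Or.inl (hmn u h1)
    · rw [k5]
      exact Or.inr (hch k k1 j k2 k3)
  -- real numbers
  have hKq : q ≤ K * q := le_mul_of_one_le_left hq.le hK
  have ht0 := R.t0
  have ht1 := R.t1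
  have hAq : A' * q ≤ K * q := mul_le_mul_of_nonneg_right hAK hq.le
  have hwq : ∀ u ≤ N₂, -(K * q) + q ≤ w u * q ∧ w u * q + s * q ≤ A' * q := fun u hu => by
    obtain ⟨h1, h2⟩ := hwb u hu
    have h3 := mul_le_mul_of_nonneg_right h1 hq.le
    have h4 := mul_le_mul_of_nonneg_right h2 hq.le
    constructor <;> linarith
  have hsq : 0 < s * q := mul_pos hs hq
  have hopos : ∀ u ≤ N₂, q < t + w u * q := fun u hu => by linarith [(hwq u hu).1]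
  have hox : ∀ u ≤ N₂, |t + w u * q - t| ≤ K * q := fun u hu => by
    have := hwq u hu
    rw [abs_le]
    constructor <;> linarith
  have hroom : ∀ u ≤ N₂, ∀ l ≤ i, L l (t + w u * q) (t + w u * q) + Eb + 3 * K * q < 1 :=
    fun u hu l hl => R.room l hl _ (hox u hu)
  have hlow : ∀ u ≤ N₂, ∀ l ≤ i, t + w u * q ≤ L l (t + w u * q) (t + w u * q) := fun u hu =>
    RecR.lowL R ((hrec u hu).imp (fun ⟨j, hj, _, h⟩ => ⟨j, hj, h⟩) id) (by linarith [hopos u hu]) (by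
      linarith [(hwq u hu).2])
  have hW := fun u (hu : u ≤ N₂) => RecR.ratW R (A' := A') (x := w u) (by
    linarith [(hwb u hu).2]) (hrec u hu) (e := ζ * q) (mul_pos hζ hq)
  choose! W hW1 hW2 hW3 using hW
  have hζq : 0 < ζ * q := mul_pos hζ hq
  have hζ8 : ζ ≤ y / 8 := by linarith
  have hCζ : C₂ * ζ ≤ y / 8 := by linarith
  have hυ8 : υ ≤ y / 16 := by nlinarith
  have hmulq : ∀ {x z : ℝ}, x ≤ z → x * q ≤ z * q := fun h => mul_le_mul_of_nonneg_right h hq.le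
  -- the natural curvature
  obtain ⟨r'', hr''⟩ : ∃ r'' : ℝ, r'' = min r' (s / 2) := ⟨_, rfl⟩
  have hr0 : 0 < r'' := by rw [hr'']; exact lt_min hr' (by positivity)
  have hr1 : r'' ≤ r' := by rw [hr'']; exact min_le_left _ _
  have hr2 : r'' ≤ s / 2 := by rw [hr'']; exact min_le_right _ _
  obtain ⟨K₁, b, hK₁, hbas1⟩ := hwin R hSS hε A' y₁ r'' N₁ N₂ (M + 1) w (fun l => ¬ Sc l) hK hy₁0
    (by linarith) hε1 hr0 hNN hAK (fun k hk => by
      rw [hwlo k hk]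
      exact hmn k hk) (fun k hk => ⟨(hwb k hk).1, by linarith [(hwb k hk).2]⟩)
    (fun k h1 h2 => by
      obtain ⟨k', j, k1, k2, k3, k4⟩ := fch_ex (n₀ := n₀) (by omega) (by omega) h1
      rw [← k4, hwf k' k1 j k3]
      exact hch k' k1 j k2 k3) hSc
  obtain ⟨κ', hκ', hbas2⟩ := hnat (C₀ := CB) (a := t + A' * q) (Eb := Eb) (ηm := y₁ * q)
    (ζ := ζ * q) (υ := υ * q) (e := e₂) (h := ζ * q) (s := s * q) (ρ := ε * q)
    (o := fun k => t + w k * q) (η := fun _ => y₁ * q) (σ := fun _ => y₁ * q) (Sl := Sl)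
    (x := fun k => t + v k * q) (Λ := fun k l => L l t t + Sl l * (v k * q))
    (lv := fun k l => L l (t + w k * q) (t + w k * q)) (Dr := Dr) (N := N₂) (M := M + 1) (n := n₀)
    (j₁ := j₁) (K := N₁ + 1) W (fch N₁ n₀) (M + 1) R.thr₂ R.tmh R.inj hDr hζq le_rfl
    (by positivity) (by
      have h1 := hmulq hb2
      have h2 : 0 ≤ C₂ * (CB * (y₁ * q)) := by positivity
      linarith) (by
      have h1 := R.Ebe
      have h2 : (C₂ * ζ + υ) * q ≤ 3 * K * q := hmulq (by linarith)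
      linarith) (fun k hk j hj => by
      rw [hN₂]
      exact fch_le (by omega) hj) le_rfl hj1 hjn hsq (by positivity) (fun k hk j hj => by
      show t + w (fch N₁ n₀ k j) * q = t + v k * q + j * (s * q)
      rw [hwf k (by omega) j hj]
      ring) (fun k hk j hj l hl => by
      have h1 := R.dL l hl _ (hox (fch N₁ n₀ k j) (by rw [hN₂]; exact fch_le (by omega) hj))
      show |L l (t + w (fch N₁ n₀ k j) * q) (t + w (fch N₁ n₀ k j) * q) -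
        (L l t t + Sl l * (v k * q)) - Sl l * (j * (s * q))| ≤ ε * q
      refine le_trans (le_of_eq ?_) h1
      congr 1
      rw [hwf k (by omega) j hj]
      ring) (RecR.sl1 R) (fun l hl => by
      have h1 := hmulq (hn1 l (by omega))
      refine le_trans (le_of_eq ?_) h1
      ring) (fun k hk j hj => by
      have hu : fch N₁ n₀ k j ≤ N₂ := by rw [hN₂]; exact fch_le (by omega) hj
      have hu3 : (C₂ * ζ + υ) * q ≤ 1 * q := hmulq (by linarith)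
      have hυq : 0 ≤ υ * q := by positivity
      have h3 : 3 * q ≤ 3 * K * q := hmulq (by linarith)
      refine ⟨?_, fun l hl => ⟨?_, ?_⟩⟩
      · have h1 := hlow _ hu 0 (Nat.zero_le _)
        have h2 := hroom _ hu 0 (Nat.zero_le _)
        show t + w (fch N₁ n₀ k j) * q + C₂ * (ζ * q) ≤ 1
        linarith [R.Eb0]
      · have h1 := hlow _ hu l hl
        have h2 := hopos _ hu
        show C₂ * (ζ * q) ≤ L l (t + w (fch N₁ n₀ k j) * q) (t + w (fch N₁ n₀ k j) * q)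
        linarith
      · have h2 := hroom _ hu l hl
        show Eb + L l (t + w (fch N₁ n₀ k j) * q) (t + w (fch N₁ n₀ k j) * q) + C₂ * (ζ * q) +
          υ * q ≤ 1
        linarith) (fun k hk j hj => by
      have hu : fch N₁ n₀ k j ≤ N₂ := by rw [hN₂]; exact fch_le (by omega) hj
      have h1 := hW1 _ hu
      have h2 := hW2 _ hu
      have h3 := hopos _ hu
      have h4 : (0 : ℝ) ≤ W (fch N₁ n₀ k j) := by linarith
      have h5 : (W (fch N₁ n₀ k j) : ℝ) < 1 := by linarith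
      refine ⟨⟨h1, by exact_mod_cast h4, by exact_mod_cast h5, R.e₂θ _ ?_⟩, fun l _ hl => ?_⟩
      · have := hwq _ hu
        rw [abs_le]
        constructor <;> linarith
      · have h6 := hW3 _ hu l hl.le
        have h7 := hroom _ hu l hl.le
        have h8 : 2 * ζ * q ≤ 3 * K * q := hmulq (by linarith)
        exact ⟨by linarith [R.Eb0], h6⟩) (fun l k1 k2 k3 => by
      have h1 := hmulq (hn2 l k1 k2 k3)
      linarith) (fun k1 => ⟨by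
      have h1 := hmulq (hn3 k1).1
      linarith, fun l k2 => by
      have h1 := hmulq ((hn3 k1).2 l k2)
      linarith⟩) (1 / K₁) (by positivity)
  -- the masses
  obtain ⟨Kn, hKn⟩ : ∃ Kn : ℝ, Kn = ((C₂ : ℝ) ^ 6) ^ (N₁ + 1) := ⟨_, rfl⟩
  rw [← hKn] at hbas2
  have hKn1 : 1 ≤ Kn := by rw [hKn]; exact one_le_pow₀ (one_le_pow₀ hC₂R)
  obtain ⟨Y, hY⟩ : ∃ Y : ℝ, Y = (16 * 4 ^ i) ^ 2 := ⟨_, rfl⟩
  have hY1 : 1 ≤ Y := by
    rw [hY]
    exact one_le_pow₀ (by have : (1 : ℝ) ≤ 4 ^ i := one_le_pow₀ (by norm_num); linarith)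
  obtain ⟨n₄, hn₄⟩ : ∃ n₄ : ℕ, n₄ = i * (N₁ + 1) * (N₁ + 1) := ⟨_, rfl⟩
  have hYn : 1 ≤ Y ^ n₄ := one_le_pow₀ hY1
  have hYn1 : 1 ≤ Y ^ (n₄ + 1) := one_le_pow₀ hY1
  refine ⟨K₁ * Kn * Y ^ n₄, by positivity, fun κ hκ => ?_⟩
  obtain ⟨κw, hκw⟩ : ∃ κw : ℝ, κw = min κ' (min (κ / (Kn * Y ^ n₄)) (1 / (Kn * Y ^ (n₄ + 1)))) :=
    ⟨_, rfl⟩
  have hκw0 : 0 < κw := by
    rw [hκw]
    exact lt_min hκ' (lt_min (by positivity) (by positivity))
  have hκw1 : κw ≤ κ' := by rw [hκw]; exact min_le_left _ _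
  have hκw2 : κw * (Kn * Y ^ n₄) ≤ κ := by
    have : κw ≤ κ / (Kn * Y ^ n₄) := by
      rw [hκw]
      exact (min_le_right _ _).trans (min_le_left _ _)
    rwa [le_div_iff₀ (by positivity)] at this
  have hκw3 : κw * (Kn * Y ^ (n₄ + 1)) ≤ 1 := by
    have : κw ≤ 1 / (Kn * Y ^ (n₄ + 1)) := by
      rw [hκw]
      exact (min_le_right _ _).trans (min_le_right _ _)
    rwa [le_div_iff₀ (by positivity)] at this
  obtain ⟨ε₁, J₁, hε₁, hdig⟩ := dig 1 (C₁ := (C₃ : ℝ)) hC₃R (show 0 < ζ * q / C₃ by positivity)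
  have htm := bas_ev (R.tmh.2 ε₁ hε₁) (κ := 1 / (K₁ * Kn * Y ^ (n₄ + 1))) (by positivity)
  have hpos : Bas S (fun _ F A => 0 < Pe F.p A) := ⟨1, one_pos, 0, fun J _ F A hA =>
    R.tmh.1 1 J F A hA⟩
  obtain ⟨δ, hδ, hgap⟩ := gap_fin N₁ (fun k => t + v k * q)
  obtain ⟨μ, hμ⟩ : ∃ μ : ℝ, μ = min (s * q) (min (y * q) (min δ q)) := ⟨_, rfl⟩
  have hμ0 : 0 < μ := by
    rw [hμ]
    exact lt_min hsq (lt_min (by positivity) (lt_min hδ hq))
  obtain ⟨J₂, hJ₂⟩ := exists_nat_gt (100 / μ)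
  refine Bas.mono (max J₁ J₂) ((((hbas1 κw hκw0).and hbas2).and htm).and hpos) ?_
  rintro J hJ F A₀ ⟨⟨⟨hA1, hA2⟩, hA3⟩, hA4⟩ z hz
  have hJ0 : (0 : ℝ) ≤ J := Nat.cast_nonneg J
  have hμJ : 100 ≤ μ * J := by
    have h1 : 100 / μ < J := hJ₂.trans_le (by exact_mod_cast (le_max_right _ _).trans hJ)
    rw [div_lt_iff₀ hμ0] at h1
    linarith
  have hmulJ : ∀ {x z : ℝ}, x ≤ z → x * (J : ℝ) ≤ z * J := fun h =>
    mul_le_mul_of_nonneg_right h hJ0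
  have hsJ : 100 ≤ s * q * J := hμJ.trans (hmulJ (by rw [hμ]; exact min_le_left _ _))
  have hyJ : 100 ≤ y * q * J := hμJ.trans (hmulJ (by
    rw [hμ]
    exact (min_le_right _ _).trans (min_le_left _ _)))
  have hδJ : 100 ≤ δ * J := hμJ.trans (hmulJ (by
    rw [hμ]
    exact (min_le_right _ _).trans ((min_le_right _ _).trans (min_le_left _ _))))
  have hqJ : 100 ≤ q * J := hμJ.trans (hmulJ (by
    rw [hμ]
    exact (min_le_right _ _).trans ((min_le_right _ _).trans (min_le_right _ _))))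
  -- the radii
  obtain ⟨z', hz'⟩ : ∃ z' : ℕ → ℕ → ℕ, z' = fun u p => if p ≤ M then
      (if u ≤ N₁ then z u p else ⌊(t + A' * q) * J⌋₊ - ⌊(t + w u * q) * J⌋₊) else
      ⌊(t + w u * q + s * q) * J⌋₊ - ⌊(t + w u * q) * J⌋₊ := ⟨_, rfl⟩
  have hdif : ∀ u ≤ N₂, r'' * q * J ≤
      ((⌊(t + w u * q + s * q) * J⌋₊ - ⌊(t + w u * q) * J⌋₊ : ℕ) : ℝ) ∧
      ⌊(t + w u * q + s * q) * J⌋₊ ≤ ⌊(t + A' * q) * J⌋₊ := by
    intro u hu
    have h0 := hopos u hu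
    have h1 : (⌊(t + w u * q) * J⌋₊ : ℝ) ≤ (t + w u * q) * J :=
      Nat.floor_le (mul_nonneg (by linarith) hJ0)
    have h2 := (Nat.lt_floor_add_one ((t + w u * q + s * q) * (J : ℝ))).le
    have h3 : ⌊(t + w u * q) * J⌋₊ ≤ ⌊(t + w u * q + s * q) * J⌋₊ :=
      Nat.floor_le_floor (hmulJ (by linarith))
    refine ⟨?_, Nat.floor_le_floor (hmulJ (by linarith [(hwq u hu).2]))⟩
    rw [Nat.cast_sub h3]
    have h4 : r'' * q * J ≤ s / 2 * q * J := hmulJ (hmulq hr2)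
    linarith
  have hz1 : ∀ u ≤ N₂, ∀ p ≤ M + 1, r'' * q * J ≤ z' u p ∧
      z' u p ≤ ⌊(t + A' * q) * J⌋₊ - ⌊(t + w u * q) * J⌋₊ := by
    intro u hu p hp
    obtain ⟨h1, h2⟩ := hdif u hu
    rw [hz']
    simp only
    split_ifs with h3 h4
    · obtain ⟨h5, h6⟩ := hz u h4 p h3
      rw [hwlo u h4]
      exact ⟨(hmulJ (hmulq hr1)).trans h5, h6⟩
    · refine ⟨h1.trans ?_, le_rfl⟩
      exact_mod_cast Nat.sub_le_sub_right h2 _
    · exact ⟨h1, Nat.sub_le_sub_right h2 _⟩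
  obtain ⟨B, gc, gT, g₀, G, H, Th, TH, Gt, Ht, k1, k2, k3, k4⟩ := hA1 z' hz1
  obtain ⟨B₁, l1, l2, l3⟩ := hA2 z' κw b B g₀ G H B k4 (fun k hk j hj => by
    rw [hz']
    simp only
    rw [if_neg (by omega), hwf k (by omega) j hj.le, hwf k (by omega) (j + 1) (by omega)]
    congr 3
    push_cast
    ring) hκw1 k1 (fun _ h => h) (by
    rw [div_mul_eq_mul_div, one_mul, div_le_iff₀ hK₁]
    linarith)
  have hp := Pe_nonneg F.isLaw
  have hB₁0 : 0 < Pe F.p B₁ := by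
    by_contra hcon
    have h2 : Pe F.p B₁ = 0 := le_antisymm (not_lt.1 hcon) (hp _)
    rw [h2, mul_zero] at l2
    have h3 : K₁ * Pe F.p B ≤ 0 := mul_nonpos_of_nonneg_of_nonpos hK₁.le l2
    linarith
  have hWn := ((k3.selM (M' := M) (z' := z) (by omega) (fun k hk p hp => by
    rw [hz']
    simp only
    rw [if_pos hp, if_pos hk])).res (κ₁ := 1 / Kn) (κ₂ := κw * Kn) l1 (by
    rw [div_mul_eq_mul_div, one_mul, div_le_iff₀ (by positivity)]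
    linarith) (by positivity) (by
    rw [mul_one_div, mul_div_assoc, div_self (by positivity), mul_one])).ocg
    (o' := fun k => t + v k * q)
    (p'' := fun k => L i (t + A' * q) (t + v k * q) - 2 * (C * (y₁ * q)))
    (lv' := fun k l => L l (t + v k * q) (t + v k * q))
    (be' := fun k l => L l (t + A' * q) (t + v k * q)) (fun k hk => by
      rw [hwlo k hk]) (fun k hk => by
      rw [hwlo k hk]) (fun k hk => by
      rw [hwlo k hk]) (fun k hk => by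
      rw [hwlo k hk])
  obtain ⟨u, hu1, hu2, hu3⟩ := hdig J ((le_max_left _ _).trans hJ)
  -- the numbers in units of `q J`
  obtain ⟨Q, hQ⟩ : ∃ Q : ℝ, Q = q * J := ⟨_, rfl⟩
  have hQ0 : 0 < Q := by rw [hQ]; linarith
  have hmQ : ∀ {x z : ℝ}, x ≤ z → x * Q ≤ z * Q := fun h => mul_le_mul_of_nonneg_right h hQ0.le
  have hQ100 : 100 ≤ Q := by rw [hQ]; exact hqJ
  have hyQ : 100 ≤ y * Q := by rw [hQ, ← mul_assoc]; exact hyJ
  have hcl1 : (⌊y * q * J⌋₊ : ℝ) ≤ y * Q := by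
    rw [hQ, ← mul_assoc]
    exact Nat.floor_le (by positivity)
  have hcl2 : y * Q - 1 ≤ (⌊y * q * J⌋₊ : ℝ) := by
    have := (Nat.lt_floor_add_one (y * q * (J : ℝ))).le
    rw [hQ, ← mul_assoc]
    linarith
  have m1 : C * (y₁ * Q) ≤ y / 32 * Q := by
    have := hmQ (show C * y₁ ≤ y / 32 by linarith)
    linarith
  have m1' : CB * (y₁ * Q) ≤ y / 32 * Q := by
    have h1 : CB * y₁ ≤ C₂ * CB * y₁ := by
      rw [mul_assoc]
      exact le_mul_of_one_le_left (by positivity) hC₂R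
    have := hmQ (show CB * y₁ ≤ y / 32 by linarith)
    linarith
  have m2 : y₁ * Q ≤ y / 32 * Q := hmQ (by linarith)
  have m3 : C₃ * (y₁ * Q) ≤ y / 32 * Q := by
    have := hmQ (show C₃ * y₁ ≤ y / 32 by linarith)
    linarith
  have hyQ1 : y * Q ≤ 1 / 8 * Q := hmQ hy1
  have hy₁Q : y₁ * q * J = y₁ * Q := by rw [hQ]; ring
  have hu4 : C₃ * (2 * (u : ℝ) + 1) ≤ y / 8 * Q := by
    push_cast at hu3
    have h1 : C₃ * (2 * (u : ℝ) + 1) ≤ C₃ * (ζ * q / C₃ * J) :=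
      mul_le_mul_of_nonneg_left hu3 (by linarith)
    have h2 : C₃ * (ζ * q / C₃ * J) = ζ * Q := by rw [hQ]; field_simp
    have h3 := hmQ hζ8
    rw [h2] at h1
    linarith
  have hθQ : C₃ * (ε₁ * J + 1) ≤ ζ * Q := by
    refine hu2.trans ?_
    have h2 : ζ * q / C₃ * J = ζ * Q / C₃ := by rw [hQ]; ring
    rw [h2]
    exact div_le_self (by positivity) hC₃R
  have hKQ : Q ≤ K * Q := le_mul_of_one_le_left hQ0.le hK
  have hroomJ : ∀ k ≤ N₁, ∀ l ≤ i, (Eb + L l (t + v k * q) (t + v k * q)) * J + 3 * (K * Q) ≤ J := by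
    intro k hk l hl
    have h1 := hmulJ (hroom k (by omega) l hl).le
    rw [hwlo k hk, one_mul] at h1
    have h2 : (L l (t + v k * q) (t + v k * q) + Eb + 3 * K * q) * J =
      (Eb + L l (t + v k * q) (t + v k * q)) * J + 3 * (K * Q) := by rw [hQ]; ring
    linarith
  have hoJ : ∀ k ≤ N₁, Q ≤ (t + v k * q) * J := by
    intro k hk
    have h1 := hmulJ (hopos k (by omega)).le
    rw [hwlo k hk] at h1
    rw [hQ]
    exact h1
  have hlvJ : ∀ k ≤ N₁, ∀ l ≤ i, (t + v k * q) * J ≤ L l (t + v k * q) (t + v k * q) * J := by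
    intro k hk l hl
    have h1 := hlow k (by omega) l hl
    rw [hwlo k hk] at h1
    exact hmulJ h1
  have haoJ : ∀ k ≤ N₁, (t + v k * q) * J ≤ (t + A' * q) * J := fun k hk => by
    have h1 := (hwq k (by omega)).2
    rw [hwlo k hk] at h1
    exact hmulJ (by linarith)
  have hmemk : ∀ k ≤ N₁, 0 ≤ t + v k * q ∧ t + v k * q ≤ t + A' * q ∧ t + A' * q ≤ 1 := by
    intro k hk
    have h1 := hwq k (by omega)
    have h2 := hopos k (by omega)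
    rw [hwlo k hk] at h1 h2
    exact ⟨by linarith, by linarith, by linarith⟩
  have hbe1 : ∀ k ≤ N₁, ∀ l < i, (t + A' * q) * J ≤ L l (t + A' * q) (t + v k * q) * J := by
    intro k hk l hl
    obtain ⟨h1, h2, h3⟩ := hmemk k hk
    rw [R.lv l hl.le]
    unfold lvN
    rw [if_pos hl]
    exact hmulJ (R.thr.low _ _ _ h1 h2 h3)
  have hbe2 : ∀ k ≤ N₁, ∀ l < i, (Eb + L l (t + A' * q) (t + v k * q)) * J + 3 * (K * Q) ≤ J := by
    intro k hk l hl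
    obtain ⟨h1, h2, h3⟩ := hmemk k hk
    have h4 := (R.lawL l hl.le).mono_w (t + A' * q) (t + v k * q) (t + A' * q) h1 h2 le_rfl h3
    have h5 := R.room l hl.le (t + A' * q) (by
      have h8 := hwq k (by omega)
      rw [abs_le]
      constructor <;> linarith)
    have h6 := hmulJ (show L l (t + A' * q) (t + v k * q) + Eb + 3 * K * q ≤ 1 by linarith)
    rw [one_mul] at h6
    have h7 : (L l (t + A' * q) (t + v k * q) + Eb + 3 * K * q) * J =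
      (Eb + L l (t + A' * q) (t + v k * q)) * J + 3 * (K * Q) := by rw [hQ]; ring
    linarith
  have hao : ∀ k ≤ N₁, (t + A' * q - (t + v k * q)) * J ≤ 2 * (K * Q) - Q := by
    intro k hk
    have h1 := hwq k (by omega)
    rw [hwlo k hk] at h1
    have h2 := hmulJ (show t + A' * q - (t + v k * q) ≤ 2 * K * q - q by linarith)
    have h3 : (2 * K * q - q) * J = 2 * (K * Q) - Q := by rw [hQ]; ring
    linarith
  obtain ⟨B', n1, n2, n3⟩ := hcev (X := ⌊(C₂ * (ζ * q) + 2 * (υ * q)) * J⌋₊)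
    (cl := ⌊y * q * J⌋₊) (u := u) (θ := ε₁ * J) hWn R.inj hDr hB₁0 (by positivity)
    (by have := (hmemk 0 (Nat.zero_le _)).2.2; exact this) (fun k hk l hl => by
      have h1 := (l3 k (by omega)).2 l hl
      have h2 : fch N₁ n₀ k 0 = k := if_pos rfl
      rw [h2, hwlo k hk] at h1
      exact h1) (by
      refine Nat.floor_le_floor (hmulJ ?_)
      have h1 := hmulq (show C₂ * ζ + 2 * υ ≤ y by linarith)
      linarith) (fun k hk j hj hle => by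
      by_contra hcon
      have h1 := hgap k hk j hj (not_le.1 hcon)
      have h2 := hmulJ h1
      have h3 := Nat.lt_floor_add_one ((t + v k * q) * (J : ℝ))
      have h4 : (⌊(t + v j * q) * J⌋₊ : ℝ) ≤ (t + v j * q) * J :=
        Nat.floor_le (mul_nonneg (hmemk j hj).1 hJ0)
      have h5 : (⌊(t + v k * q) * J⌋₊ : ℝ) ≤ ⌊(t + v j * q) * J⌋₊ := by exact_mod_cast hle
      linarith) (by rw [hy₁Q]; linarith) (by rw [hy₁Q]; linarith) (by
      rw [hy₁Q]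
      have h1 : (0 : ℝ) ≤ u := Nat.cast_nonneg u
      have h2 : 0 ≤ C₃ * (u : ℝ) := by positivity
      linarith) (fun k hk l hl => by
      have h1 := hroomJ k hk l hl
      have h2 := hao k hk
      rw [hy₁Q]
      linarith) (fun k hk l hl _ => by
      have h1 := hbe2 k hk l hl
      rw [hy₁Q]
      linarith) (fun k hk l hl => by
      have h1 := hlvJ k hk l hl.le
      have h2 := hoJ k hk
      rw [hy₁Q]
      linarith) (fun k hk l hl _ => by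
      have h1 := hbe1 k hk l hl
      have h2 := hoJ k hk
      have h3 := haoJ k hk
      rw [hy₁Q]
      linarith) (by positivity) (fun k hk => by
      have hL2 : (1 : ℝ) / 2 ≤ Real.log 2 := by
        have := Real.log_two_gt_d9
        linarith
      have h1 := hroomJ k hk 0 (Nat.zero_le _)
      have h2 := hlvJ k hk 0 (Nat.zero_le _)
      have h3 : (⌊(t + v k * q) * J⌋₊ : ℝ) ≤ (t + v k * q) * J :=
        Nat.floor_le (mul_nonneg (hmemk k hk).1 hJ0)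
      have h4 : 0 ≤ Eb * (J : ℝ) := mul_nonneg R.Eb0.le hJ0
      have h5 : 3 * Q ≤ (J : ℝ) - ⌊(t + v k * q) * J⌋₊ := by linarith
      have h6 : 3 * Q * (1 / 2) ≤ ((J : ℝ) - ⌊(t + v k * q) * J⌋₊) * Real.log 2 :=
        mul_le_mul h5 hL2 (by norm_num) (by linarith)
      have h7 := hmQ (show ζ ≤ 1 by linarith)
      linarith) hu1 (by
      rw [← hY, ← hn₄, mul_assoc]
      exact hκw3) (fun B' hB' s1 s2 => hA3 B' (fun ω hω => k1 ω (l1 ω (s1 ω hω))) (by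
      rw [← hY, ← hn₄] at s2
      rw [div_mul_eq_mul_div, one_mul, div_le_iff₀ (by positivity)]
      calc Pe F.p A₀ ≤ K₁ * Pe F.p B := k2
        _ ≤ K₁ * (Kn * Pe F.p B₁) := mul_le_mul_of_nonneg_left l2 hK₁.le
        _ ≤ K₁ * (Kn * (Y ^ (n₄ + 1) * Pe F.p B')) := by gcongr
        _ = _ := by ring) hB')
  rw [← hY, ← hn₄] at n2 n3
  refine ⟨B', _, _, _, _, gc, gT, g₀, G, H, Th, TH, Gt, Ht, fun ω hω => k1 ω (l1 ω (n1 ω hω)), ?_,
    cev_sub n3 (κ₁ := 1) (fun _ h => h) (by rw [one_mul]) hκ.le (by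
      rw [mul_one, mul_assoc]
      exact hκw2), fun k hk => ⟨⟨?_, ?_⟩, ⟨?_, ?_⟩, fun l hl => ⟨?_, ?_⟩, fun l hl hl2 => ?_⟩⟩
  · calc Pe F.p A₀ ≤ K₁ * Pe F.p B := k2
      _ ≤ K₁ * (Kn * Pe F.p B₁) := mul_le_mul_of_nonneg_left l2 hK₁.le
      _ ≤ K₁ * (Kn * (Y ^ n₄ * Pe F.p B')) := by gcongr
      _ = _ := by ring
  · have h1 : (⌊(Eb + y₁ * q + y₁ * q) * J⌋₊ : ℝ) ≤ (Eb + y₁ * q + y₁ * q) * J :=
      Nat.floor_le (mul_nonneg (by have := R.Eb0; positivity) hJ0)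
    have h2 : (Eb + y₁ * q + y₁ * q) * J = Eb * J + 2 * (y₁ * Q) := by rw [hQ]; ring
    have h3 : (Eb + y * q) * J = Eb * J + y * Q := by rw [hQ]; ring
    rw [h3]
    linarith
  · have h1 : (⌊y₁ * q * J⌋₊ : ℝ) ≤ y₁ * Q := (Nat.floor_le (by positivity)).trans_eq hy₁Q
    have h3 : y * q * J = y * Q := by rw [hQ]; ring
    rw [h3]
    show (⌊y₁ * q * J⌋₊ : ℝ) ≤ y * Q
    linarith
  · have h1 := (Nat.lt_floor_add_one
      ((L i (t + A' * q) (t + v k * q) - 2 * (C * (y₁ * q))) * (J : ℝ))).le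
    have h2 : (L i (t + A' * q) (t + v k * q) - 2 * (C * (y₁ * q))) * (J : ℝ) =
      L i (t + A' * q) (t + v k * q) * J - 2 * (C * (y₁ * Q)) := by rw [hQ]; ring
    have h3 : y * q * J = y * Q := by rw [hQ]; ring
    rw [h3]
    show _ ≤ (⌊(L i (t + A' * q) (t + v k * q) - 2 * (C * (y₁ * q))) * J⌋₊ : ℝ)
    linarith
  · have h0 : 0 ≤ L i (t + A' * q) (t + v k * q) - 2 * (C * (y₁ * q)) :=
      (by positivity : (0 : ℝ) ≤ C * (y₁ * q)).trans (hWn.hp' k hk)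
    have h1 : (⌊(L i (t + A' * q) (t + v k * q) - 2 * (C * (y₁ * q))) * J⌋₊ : ℝ) ≤
        (L i (t + A' * q) (t + v k * q) - 2 * (C * (y₁ * q))) * J :=
      Nat.floor_le (mul_nonneg h0 hJ0)
    refine h1.trans (hmulJ ?_)
    have : 0 ≤ C * (y₁ * q) := by positivity
    linarith
  · obtain ⟨t1, t2, t3, t4, t5, t6⟩ := hWn.g_num hk hl
    rw [hy₁Q] at t3
    have h3 : y * q * J = y * Q := by rw [hQ]; ring
    rw [h3, abs_le]
    constructor <;> linarith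
  · obtain ⟨t1, t2, t3, t4, t5, t6⟩ := hWn.g_num hk hl
    rw [hy₁Q] at t1
    have h3 : y * q * J = y * Q := by rw [hQ]; ring
    rw [h3, abs_le]
    constructor <;> linarith
  · obtain ⟨t1, t2⟩ := (hWn.t_num hk hl).2 (not_not_intro hl2)
    rw [hy₁Q] at t1
    have h3 : y * q * J = y * Q := by rw [hQ]; ring
    rw [h3, abs_le]
    constructor <;> linarith

end Pool.STV
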