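import Pool.Agent.H14.STV.Win
import Pool.Agent.H95.R136.Rra

/-!
# The rational points behind the windows `t` and `t + q`, target of any kind

`RecR.ra`: as `RecQ.ra`.
-/

set_option autoImplicit false

namespace Pool.STV

open Finset Real MvPolynomial
open Pool.Agent.H49.Ent Pool.Agent.H32.Dense Pool.STK Pool.KA Pool.KSAT Pool.K2S Pool.PB Pool.S6C
open Pool.GEN Pool.CHT Pool.CHX Pool.D2F Pool.D2R
open Pool.LBT (ThrOf)
open Pool.FLF (Fam.sub)
open Pool.PKG (RecQ PtI KdQ Kd)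

/-- **The rational points** behind the windows `t` and `t + q`. -/
theorem RecR.ra {m : ℕ} {S : PCl m} {P P₂ : List (Fin m) × Fin m → ℝ → ℝ → ℝ} {θ θ₂ : ℝ}
    {c : ℕ → Fin m} {i : ℕ} {Pt : ℝ → ℝ → ℝ} {L T : ℕ → ℝ → ℝ → ℝ} {Sl : ℕ → ℝ} {kd : ℕ → Kd}
    {S₀ N : ℕ} {Al V : ℕ → ℝ} {S₂ N' : ℕ} {V' : ℕ → ℝ} {Eb e₂ K ε q t : ℝ}
    (R : RecR S P P₂ θ θ₂ c i Pt L T Sl kd S₀ N Al V S₂ N' V' Eb e₂ K ε q t) {y : ℝ}
    (hy : 0 < y) (hy1 : y ≤ 1 / 1000) (hεy : ε ≤ y / 4) (hK : 3 ≤ K) {j : ℕ} (hj : j < N)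
    (hA : Al j = 1) (hV : V j = 0) : ∃ a w' : ℚ, t + q < a ∧ (a : ℝ) < t + 2 * q ∧ t < w' ∧
      (w' : ℝ) < t + q ∧ 0 ≤ w' ∧ w' ≤ a ∧ a < 1 ∧ e₂ < θ₂ * a ∧ e₂ < θ₂ * w' ∧
      (∀ l ≤ i, bet P₂ c l a a + y * q ≤ 1) ∧
      (∀ l ≤ i, ∀ J : ℕ, (⌊(bet P₂ c l a a + y * q) * J⌋₊ : ℝ) ≤
        L l t t * J + Sl l * (q * J) + 5 * (y * (q * J))) ∧
      bet P₂ c i a w' ≤ L i (t + q) t + y * q := by
  have hq := R.q0
  have hyq : 0 < y * q := mul_pos hy hq
  obtain ⟨dr, hdr, hrat⟩ := R.rat j hj (y * q) hyq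
  rw [hA, hV, one_mul, zero_mul, add_zero] at hrat
  have mdr : 0 < min dr q := lt_min hdr hq
  obtain ⟨w', hw1, hw2⟩ := exists_rat_btwn (show t < t + min dr q by linarith only [mdr])
  obtain ⟨a, ha1, ha2⟩ := exists_rat_btwn (show t + q < t + q + min dr q by
    linarith only [mdr])
  have m1 := min_le_left dr q
  have m2 := min_le_right dr q
  have ht0 := R.t0
  have ht1 := R.t1
  have hKq : 3 * q ≤ K * q := mul_le_mul_of_nonneg_right hK hq.le
  obtain ⟨r1, r2, r3⟩ := hrat a w' ha1.le (by linarith only [ha2, m1]) hw1.le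
    (by linarith only [hw2, m1]) (by linarith only [hw2, ha1, m2])
  have bx : ∀ x : ℝ, t ≤ x → x ≤ t + 2 * q → |x - t| ≤ K * q := fun x h4 h5 => by
    rw [abs_le]
    exact ⟨by linarith only [h4, hKq, hq], by linarith only [h5, hKq, hq]⟩
  have L1 : ∀ l ≤ i, L l (t + q) (t + q) ≤ L l t t + Sl l * q + y / 4 * q := fun l hl => by
    have h4 := abs_le.1 (R.dL l hl (t + q) (bx _ (by linarith only [hq])
      (by linarith only [hq])))
    have h5 := mul_le_mul_of_nonneg_right hεy hq.le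
    rw [add_sub_cancel_left] at h4
    linarith only [h4.2, h5]
  have hEb := R.Eb0
  have hyq1 : y * q ≤ q / 1000 := by
    have := mul_le_mul_of_nonneg_right hy1 hq.le
    linarith only [this]
  have e3K : 3 * K * q = 3 * (K * q) := by ring
  have ha3 : (a : ℝ) < 1 := by linarith only [ha2, m2, ht1, hKq, hq]
  have hw3 : (0 : ℝ) ≤ w' := by linarith only [hw1, ht0, hKq, hq]
  have hwa : (w' : ℝ) ≤ a := by linarith only [hw2, ha1, m2]
  have hlow : ∀ l ≤ i, t ≤ L l t t := fun l hl => by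
    have h1 := RecR.lowL R (x := 0) (Or.inl ⟨j, hj, hV⟩) (by linarith only [ht0, hKq, hq])
      (by linarith only [ht1, hKq, hq]) l hl
    rw [zero_mul, add_zero] at h1
    exact h1
  refine ⟨a, w', ha1, by linarith only [ha2, m2], hw1, by linarith only [hw2, m2],
    by exact_mod_cast hw3, by exact_mod_cast hwa, by exact_mod_cast ha3,
    R.e₂θ a (bx _ (by linarith only [ha1, hq]) (by linarith only [ha2, m2])),
    R.e₂θ w' (bx _ hw1.le (by linarith only [hw2, m2, hq])), fun l hl => ?_, fun l hl J => ?_, r1⟩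
  · have h1 := R.room l hl _ (bx (t + q) (by linarith only [hq]) (by linarith only [hq]))
    linarith only [h1, r3 l hl, e3K, hKq, hyq1, hEb, hq]
  · have hJ0 : (0 : ℝ) ≤ J := Nat.cast_nonneg J
    have h5 := L1 l hl
    have h6 : bet P₂ c l a a + y * q ≤ L l t t + Sl l * q + 5 * (y * q) := by
      linarith only [h5, r3 l hl, hyq]
    have h7 := mul_le_mul_of_nonneg_right h6 hJ0
    have e1 : (L l t t + Sl l * q + 5 * (y * q)) * J = L l t t * J + Sl l * (q * J) +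
        5 * (y * (q * J)) := by ring
    rw [e1] at h7
    rcases le_total 0 ((bet P₂ c l a a + y * q) * (J : ℝ)) with h8 | h8
    · exact (Nat.floor_le h8).trans h7
    · rw [Nat.floor_of_nonpos h8, Nat.cast_zero]
      have h9 := RecR.sl1 R l hl
      have h10 : 0 ≤ L l t t * J := mul_nonneg (by
        linarith only [hlow l hl, ht0, hKq, hq]) hJ0
      have h11 : 0 ≤ Sl l * (q * J) := mul_nonneg (by linarith only [h9]) (mul_nonneg hq.le hJ0)
      have h12 : 0 ≤ y * (q * J) := mul_nonneg hy.le (mul_nonneg hq.le hJ0)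
      linarith only [h10, h11, h12]

end Pool.STV
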