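import Pool.Agent.H14.STV.Rec

/-!
# Void cells

`CelV n i Sl κ`: there is no record `RecR` of the windows with the slopes `Sl` and the kinds `κ`
before the place `i`. `void_of`: almost no good window has the kinds of a void cell.
-/

set_option autoImplicit false

namespace Pool.STV

open MeasureTheory Set Filter Topology
open Pool.Agent.H49.Ent Pool.Agent.H32.Dense Pool.STK Pool.KA Pool.KSAT Pool.K2S Pool.PB
open Pool.GEN Pool.S6C Pool.STAT Pool.CHT Pool.GRW Pool.ONE Pool.STA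
open Pool.LBT (LSys ThrOf)
open Pool.LEV (Law)
open Pool.TOP (TopS)
open Pool.STR (ThinAt SteepAt StaAt)
open Pool.ISO (PtD lvN WinD)
open Pool.PKG

/-- **A void cell**: there is no record of the windows, at suitable offsets. -/
def CelV (n i : ℕ) (Sl : ℕ → ℝ) (κ : ℕ → Kd) : Prop :=
  ∀ S₀ : ℕ, 1 ≤ S₀ → ∃ (K : ℝ) (N : ℕ) (A V : ℕ → ℝ), 1 ≤ K ∧
    (∀ k < N, -K ≤ V k ∧ V k ≤ A k ∧ A k ≤ K) ∧
    ∀ S₂ : ℕ, S₀ ≤ S₂ → ∃ (N' : ℕ) (V' : ℕ → ℝ), (∀ k < N', -K ≤ V' k ∧ V' k ≤ K) ∧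
      ∃ ε : ℝ, 0 < ε ∧ ∀ (S : PCl n)
      (P P₂ : List (Fin n) × Fin n → ℝ → ℝ → ℝ) (θ θ₂ : ℝ) (c : ℕ → Fin n) (Pt : ℝ → ℝ → ℝ)
      (L T : ℕ → ℝ → ℝ → ℝ) (Eb e₂ q t : ℝ),
      ¬ RecR S P P₂ θ θ₂ c i Pt L T Sl κ S₀ N A V S₂ N' V' Eb e₂ K ε q t

variable {n : ℕ} {hn : 2 ≤ n} {S : PCl n} {P : ℝ → ℝ → ℝ} {r : ℝ → ℝ}
  {P' : ℕ → List (Fin n) × Fin n → ℝ → ℝ → ℝ} {Λ : Finset (Fin n) → Fin n → ℝ → ℝ → ℝ}
  {PB : ℕ → List (Fin n) × Fin n → ℝ → ℝ → ℝ}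

/-- **Almost no good window has the kinds of a void cell.** -/
theorem void_of (H : PkT hn S P r P' Λ PB) (hTop : TopS n) (hF : FZX (n - 1)) :
    ∀ᵐ g : ℝ, ∀ o : Od n, g ∈ Gs P r P' Λ o → ∀ i, 1 ≤ i → i ≤ n - 1 → ∀ κ : ℕ → Kd,
      (∀ l < i, KdAt hn P P' PB o l g (κ l)) → ¬ CelV n i (SlL hn P P' o g) κ := by
  obtain ⟨S', PQ, -, HB⟩ := pkB_ex H
  filter_upwards [HB.winK_ae hTop hF, H.dia_all H.pble hTop hF] with g h1 h3 o ho i hi1 hi κ hk hV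
  obtain ⟨α, Q, c', F⟩ := H.toPk.fac hTop hF ho
  have W := h1 o ho i hi1 hi
  have hSl1 : 1 ≤ SlL hn P P' o g i := by
    obtain ⟨d1, d2, d3⟩ := h3 o ho i hi
    have hlt : LvL hn P P' o i g g < 1 := by
      obtain ⟨E, hE, h4, -⟩ := F.ptD H.toPk
      have h5 := h4 i hi
      have h6 : LvL hn P P' o i g g = lvN (P' o.2) (cc hn o.1.1) (n - 1) P i g g := rfl
      rw [h6]
      linarith
    exact one_le_slope (H.lawL o i) F.g0 F.g1 hlt d1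
  obtain ⟨S₀, hS₀, W⟩ := recR_of HB.toPkT hi1 hi W hk hSl1 fun l _ => rfl
  obtain ⟨K, N, A, V, hK, hAV, hc⟩ := hV S₀ hS₀
  obtain ⟨S₂, hS₂, W⟩ := W K K N A V hK le_rfl hAV 1 one_pos
  obtain ⟨N', V', hV', ε, hε, hc⟩ := hc S₂ hS₂
  obtain ⟨q₁, hq₁, W⟩ := W N' V' hV' ε hε
  obtain ⟨P₂, θ₂, Eb, e₂, t, ht1, ht2, hR⟩ := W (q₁ / 2) g (by linarith) (by linarith) (by
    rw [sub_self, abs_zero]
    have : 0 < K := by linarith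
    positivity)
  exact hc _ _ _ _ _ _ _ _ _ _ _ _ _ hR

end Pool.STV
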