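import Pool.Agent.H14.STV.Kch
import Pool.Agent.H14.STV.Void
import Pool.Agent.H14.STV.Ra
import Pool.Agent.H88.D2.Ss2

/-!
# The slope of a static coordinate over a static coordinate of slope two, target of any kind

`celV_s2`: there is no cell `[one, sta, sta]` of slopes `1, 2, s`, `2 < s`, `s ≠ 3`.
-/

set_option autoImplicit false

namespace Pool.STV

open Finset Real MvPolynomial
open Pool.Agent.H49.Ent Pool.Agent.H32.Dense Pool.STK Pool.KA Pool.KSAT Pool.K2S Pool.PB Pool.S6C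
open Pool.GEN Pool.CHT Pool.CHX Pool.ISO Pool.D2R Pool.D2Z Pool.D2F Pool.AFT Pool.PKG Pool.TN
open Pool.LBT (ThrOf)
open Pool.FLF (Fam.sub)

/-- **The cells** `[one, sta, sta]` of slopes `1, 2, s`, `2 < s`, `s ≠ 3`, **are void**. -/
theorem celV_s2 {n : ℕ} {Sl : ℕ → ℝ} {κ : ℕ → Kd} (k0 : κ 0 = .one) (k1 : κ 1 = .sta)
    (k2 : κ 2 = .sta) (h0 : Sl 0 = 1) (h1 : Sl 1 = 2) (h2 : 2 < Sl 2) (h3 : Sl 2 ≠ 3) :
    CelV n 3 Sl κ := by
  intro S₀ hS₀
  obtain ⟨n₁, hn₁, hg2, hg3⟩ := s2_win h2 h3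
  have hn₁R : (1 : ℝ) ≤ n₁ := by exact_mod_cast hn₁
  obtain ⟨A', hA'⟩ : ∃ A' : ℝ, A' = 2 + 2 * n₁ := ⟨_, rfl⟩
  obtain ⟨K, hK⟩ : ∃ K : ℝ, K = A' + n₁ + 3 := ⟨_, rfl⟩
  obtain ⟨a₀, ha₀⟩ : ∃ a₀ : ℝ, a₀ = -(n₁ : ℝ) := ⟨_, rfl⟩
  obtain ⟨nk, hnk⟩ : ∃ nk : ℕ → ℕ, nk = fun k => if k = 0 then 0 else if k = 1 then n₁ + 1
    else if k = 2 then 2 * n₁ + 1 else 3 * n₁ + 1 := ⟨_, rfl⟩
  have nk0 : nk 0 = 0 := by rw [hnk]; rfl
  have nk1 : nk 1 = n₁ + 1 := by rw [hnk]; rfl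
  have nk2 : nk 2 = 2 * n₁ + 1 := by rw [hnk]; rfl
  have nk3 : nk 3 = 3 * n₁ + 1 := by rw [hnk]; rfl
  have hnkl : ∀ k < 3, nk k < nk 3 := fun k hk => by
    have h5 : k = 0 ∨ k = 1 ∨ k = 2 := by omega
    rcases h5 with rfl | rfl | rfl <;> omega
  have hnkR : ∀ k ≤ 3, (nk k : ℝ) ≤ 3 * n₁ + 1 := fun k hk => by
    rcases Nat.lt_or_ge k 3 with h5 | h5
    · have h6 : nk k ≤ nk 3 := (hnkl k h5).le
      rw [nk3] at h6
      exact_mod_cast h6
    · have h6 : k = 3 := by omega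
      rw [h6, nk3]
      push_cast
      exact le_rfl
  obtain ⟨Al, hAl⟩ : ∃ Al : ℕ → ℝ, Al = fun k => if k = 4 then 1 else A' := ⟨_, rfl⟩
  obtain ⟨Vl, hVl⟩ : ∃ Vl : ℕ → ℝ, Vl = fun k => if k = 4 then 0 else a₀ + nk k := ⟨_, rfl⟩
  have Al4 : Al 4 = 1 := by rw [hAl]; simp
  have Vl4 : Vl 4 = 0 := by rw [hVl]; simp
  have Alk : ∀ k ≤ 3, Al k = A' := fun k hk => by
    rw [hAl]
    simp only [show k ≠ 4 by omega, if_false]
  have Vlk : ∀ k ≤ 3, Vl k = a₀ + nk k := fun k hk => by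
    rw [hVl]
    simp only [show k ≠ 4 by omega, if_false]
  have hub0 : ∀ k ≤ 3, -(n₁ : ℝ) ≤ a₀ + nk k ∧ a₀ + nk k + 1 ≤ A' := fun k hk => by
    have h5 : (0 : ℝ) ≤ nk k := Nat.cast_nonneg _
    exact ⟨by linarith only [ha₀, h5], by linarith only [ha₀, hnkR k hk, hA']⟩
  have hA4 : 4 ≤ A' := by linarith only [hA', hn₁R]
  refine ⟨K, 5, Al, Vl, by linarith only [hK, hA4, hn₁R], fun k hk => ?_, fun S₂ hS₂ => ?_⟩
  · rcases Nat.lt_or_ge k 4 with h5 | h5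
    · rw [Alk k (by omega), Vlk k (by omega)]
      have h6 := hub0 k (by omega)
      exact ⟨by linarith only [h6.1, hK, hA4], by linarith only [h6.2], by
        linarith only [hK, hn₁R]⟩
    · have h6 : k = 4 := by omega
      subst h6
      rw [Al4, Vl4]
      exact ⟨by linarith only [hK, hA4, hn₁R], by norm_num, by linarith only [hK, hA4, hn₁R]⟩
  obtain ⟨D₀, hD₀, hcev⟩ := cevkR n S₀ hS₀
  obtain ⟨D, hDD, hcev⟩ := hcev S₂ hS₂
  have hD : 1 ≤ D := hD₀.trans hDD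
  obtain ⟨C₁, hC₁, hst⟩ := sta_st n D 3 hD le_rfl
  obtain ⟨C₂, hC₂, hdq⟩ := CEv.dq n D 3 hD le_rfl
  obtain ⟨C, hC⟩ : ∃ C, C = 2 * C₁ + 2 * C₂ + 10 := ⟨_, rfl⟩
  have hC1 : 1 ≤ C := by omega
  have hCR : (1 : ℝ) ≤ C := by exact_mod_cast hC1
  have hC0 : (0 : ℝ) < C := by linarith only [hCR]
  obtain ⟨y, hy⟩ : ∃ y : ℝ, y = 1 / (12000 * C) := ⟨_, rfl⟩
  have hy0 : 0 < y := by rw [hy]; positivity
  have hyC : 12000 * (C * y) = 1 := by rw [hy]; field_simp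
  have hyy : y ≤ C * y := le_mul_of_one_le_left hy0.le hCR
  have hy1 : y ≤ 1 / 12000 := by linarith only [hyC, hyy]
  obtain ⟨n₀, p, s', ε₀, y', hn₀, hp, hs', hns, hε₀, hy'0, hy'y, hcev⟩ := hcev D le_rfl Sl y
    (1 / 2) hy0 (by linarith only [hy1]) (by norm_num)
    (fun l hl1 hl2 => by
      have : l = 1 ∨ l = 2 := by omega
      rcases this with rfl | rfl
      · rw [h1]; norm_num
      · linarith only [h2]) ⟨by rw [h0, h1]; norm_num, by rw [h0]; linarith only [h2]⟩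
    (by rw [h1]; exact h2.le)
  have hpR : (0 : ℝ) < p := by
    have : (1 : ℝ) ≤ p := by exact_mod_cast hp
    linarith only [this]
  obtain ⟨q₁, hq₁⟩ : ∃ q₁, q₁ = nk 3 * p := ⟨_, rfl⟩
  obtain ⟨V', hV'⟩ : ∃ V' : ℕ → ℝ, V' = fun j => if j ≤ q₁ then a₀ + j / p else
    a₀ + nk ((j - (q₁ + 1)) / n₀) + (((j - (q₁ + 1)) % n₀ : ℕ) + 1) * s' := ⟨_, rfl⟩
  have hV'1 : ∀ k ≤ q₁, V' k = a₀ + k / p := fun k hk => by
    rw [hV']
    simp only [hk, if_true]
  have hV'2 : ∀ k ≤ 3, ∀ j, 1 ≤ j → j ≤ n₀ → V' (q₁ + 1 + (k * n₀ + (j - 1))) =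
      a₀ + nk k + j * s' := fun k hk j hj1 hj2 => by
    rw [hV']
    beta_reduce
    rw [if_neg (by omega), show q₁ + 1 + (k * n₀ + (j - 1)) - (q₁ + 1) = k * n₀ + (j - 1) by omega]
    have h5 : (k * n₀ + (j - 1)) / n₀ = k := by
      rw [mul_comm, Nat.mul_add_div (by omega), Nat.div_eq_of_lt (by omega), add_zero]
    have h6 : (k * n₀ + (j - 1)) % n₀ = j - 1 := by
      rw [mul_comm, Nat.mul_add_mod, Nat.mod_eq_of_lt (by omega)]
    rw [h5, h6]
    have h7 : ((j - 1 : ℕ) : ℝ) + 1 = j := by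
      have : ((j - 1 + 1 : ℕ) : ℝ) = j := by rw [Nat.sub_add_cancel hj1]
      push_cast at this
      exact this
    rw [h7]
  refine ⟨q₁ + 1 + 4 * n₀, V', fun j hj => ?_, min ε₀ (y' / 4), lt_min hε₀ (by positivity), ?_⟩
  · rcases Nat.lt_or_ge q₁ j with h5 | h5
    · have h6 : (j - (q₁ + 1)) / n₀ ≤ 3 := by
        have : (j - (q₁ + 1)) / n₀ < 4 := Nat.div_lt_of_lt_mul (by
          rw [mul_comm]
          omega)
        omega
      have h7 : (((j - (q₁ + 1)) % n₀ : ℕ) : ℝ) + 1 ≤ n₀ + 1 := by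
        have : (j - (q₁ + 1)) % n₀ < n₀ := Nat.mod_lt _ (by omega)
        have : (((j - (q₁ + 1)) % n₀ : ℕ) : ℝ) ≤ n₀ := by exact_mod_cast this.le
        linarith only [this]
      have h8 := mul_le_mul_of_nonneg_right h7 hs'.le
      have h9 := hub0 _ h6
      have h10 : 0 ≤ ((((j - (q₁ + 1)) % n₀ : ℕ) : ℝ) + 1) * s' := by positivity
      rw [hV']
      beta_reduce
      rw [if_neg (by omega)]
      exact ⟨by linarith only [h9.1, h10, hK, hA4], by linarith only [h9.2, h8, hns, hK, hn₁R]⟩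
    · rw [hV'1 j h5]
      have h6 : (0 : ℝ) ≤ j / p := by positivity
      have h7 : (j : ℝ) / p ≤ 3 * n₁ + 1 := by
        rw [div_le_iff₀ hpR]
        have : (j : ℝ) ≤ (nk 3 * p : ℕ) := by
          rw [← hq₁]
          exact_mod_cast h5
        rw [nk3] at this
        push_cast at this
        exact this
      exact ⟨by linarith only [h6, ha₀, hK, hA4], by linarith only [h7, ha₀, hK, hA', hn₁R]⟩
  intro S P P₂ θ θ₂ c Pt L T Eb e₂' q t R
  have hq := R.q0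
  have hεe : min ε₀ (y' / 4) ≤ ε₀ := min_le_left _ _
  have hεy : min ε₀ (y' / 4) ≤ y' / 4 := min_le_right _ _
  have hε0 : 0 < min ε₀ (y' / 4) := lt_min hε₀ (by positivity)
  have hyq : 0 < y' * q := mul_pos hy'0 hq
  have hK3 : 3 ≤ K := by linarith only [hK, hA4, hn₁R]
  obtain ⟨a, w', ra1, ra2, ra3, ra4, ra5, ra6, ra7, ra8, ra9, rb, rn, -⟩ :=
    RecR.ra R hy'0 (by linarith only [hy1, hy'y]) hεy hK3 (j := 4) (by norm_num) Al4 Vl4
  obtain ⟨u, hu⟩ : ∃ u : ℕ → ℝ, u = fun k => if k ≤ 3 then a₀ + nk k else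
    a₀ + ((k - 4 : ℕ) : ℝ) / p := ⟨_, rfl⟩
  have hu1 : ∀ k ≤ 3, u k = a₀ + nk k := fun k hk => by
    rw [hu]
    simp only [hk, if_true]
  have hu2 : ∀ k ≤ nk 3 * p, u (3 + 1 + k) = a₀ + k / p := fun k _ => by
    rw [hu]
    beta_reduce
    rw [if_neg (by omega), show 3 + 1 + k - 4 = k by omega]
  have hub : ∀ k ≤ 3, u 0 ≤ u k ∧ u k + 1 ≤ A' ∧ 2 ≤ K + u k := fun k hk => by
    have h5 := hub0 k hk
    rw [hu1 k hk, hu1 0 (by norm_num), nk0, Nat.cast_zero, add_zero]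
    exact ⟨by linarith only [h5.1, ha₀], h5.2, by linarith only [h5.1, hK, hA4]⟩
  obtain ⟨K₁, hK₁, hcev⟩ := hcev R hε0.le hεe (by linarith only [hK3]) A' a₀ 3 nk u
    (fun l => κ l = .sta) (by linarith only [hK, hn₁R]) hu1 hu2 hnkl
    (fun k hk => ⟨by linarith only [(hub k hk).2.2], by linarith only [(hub k hk).2.1]⟩)
    (by linarith only [ha₀, hK, hA4])
    (fun k hk => ⟨k, by omega, Alk k hk, by rw [Vlk k hk, hu1 k hk]⟩)
    (fun k hk => ⟨k, by omega, hV'1 k (by omega)⟩)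
    (fun k hk j hj1 hj2 => ⟨q₁ + 1 + (k * n₀ + (j - 1)), by
      have h5 : k * n₀ ≤ 3 * n₀ := Nat.mul_le_mul_right _ hk
      omega, by rw [hV'2 k hk j hj1 hj2, hu1 k hk]⟩) (fun l hl hsc => by
      cases h5 : κ l with
      | one => exact Or.inl rfl
      | thin => exact Or.inr rfl
      | sta => exact absurd h5 hsc) (fun l hl hsc => hsc)
  have hL2 : 0 < Real.log 2 := Real.log_pos (by norm_num)
  have hC2R : (1 : ℝ) ≤ C₂ := by exact_mod_cast hC₂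
  have hC20 : (0 : ℝ) < C₂ := by linarith only [hC2R]
  obtain ⟨ε₁, hε₁⟩ : ∃ ε₁ : ℝ, ε₁ = y' * q * Real.log 2 / (4 * C₂) := ⟨_, rfl⟩
  have hε₁0 : 0 < ε₁ := by rw [hε₁]; positivity
  have hV1 := hcev 1 one_pos
  have hV2 := hst R.thr₂ R.tmh c R.inj a e₂' (y' * q) (y' * q / 2) (1 / (4 * K₁))
    (by exact_mod_cast ra5.trans ra6) ra7 ra8 hyq (rb 0 (by norm_num)) (rb 2 (by norm_num))
    (by positivity) (by positivity)
  have hV3 := bas_ev (R.tmh.2 ε₁ hε₁0) (κ := 1 / K₁) (by positivity)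
  have hpos : Bas S (fun _ F A => 0 < Pe F.p A) := ⟨1, one_pos, 0, fun J _ F A hA =>
    R.tmh.1 1 J F A hA⟩
  obtain ⟨J₁, hJ₁⟩ := exists_nat_ge (((C : ℝ) + 2) / (y' * q) + 4 * C₂ / (y' * q * Real.log 2))
  refine Pool.LBT.bas_false R.ne (Φ := fun _ _ _ => True) ⟨1, one_pos, 0, fun _ _ _ _ _ =>
    trivial⟩ (Bas.mono J₁ (((hV1.and hV2).and hV3).and hpos) ?_)
  rintro J hJ F A₀ ⟨⟨⟨hA1, hA2⟩, hA3⟩, hA0⟩ -
  have hJR : (J₁ : ℝ) ≤ J := by exact_mod_cast hJ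
  have hyU : (C : ℝ) + 2 ≤ y' * (q * J) := by
    have h4 : ((C : ℝ) + 2) / (y' * q) ≤ J := by
      have : 0 ≤ 4 * C₂ / (y' * q * Real.log 2) := by positivity
      linarith only [hJ₁, hJR, this]
    rw [div_le_iff₀ hyq] at h4
    linarith only [h4]
  have hJ0 : (0 : ℝ) ≤ J := Nat.cast_nonneg J
  have hJC : 4 * C₂ ≤ y' * q * Real.log 2 * J := by
    have h4 : 4 * C₂ / (y' * q * Real.log 2) ≤ J := by
      have : 0 ≤ ((C : ℝ) + 2) / (y' * q) := by positivity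
      linarith only [hJ₁, hJR, this]
    rw [div_le_iff₀ (by positivity)] at h4
    linarith only [h4]
  obtain ⟨U, hU⟩ : ∃ U : ℝ, U = q * J := ⟨_, rfl⟩
  rw [← hU] at hyU
  have hU0 : 0 ≤ U := by rw [hU]; positivity
  obtain ⟨w, hw⟩ : ∃ w : ℕ → ℕ, w = fun k => ⌊(t + u k * q) * J⌋₊ := ⟨_, rfl⟩
  obtain ⟨A, hA⟩ : ∃ A : ℕ, A = ⌊(t + A' * q) * J⌋₊ := ⟨_, rfl⟩
  obtain ⟨cl, hcl⟩ : ∃ cl : ℕ, cl = ⌊y' * q * J⌋₊ := ⟨_, rfl⟩
  obtain ⟨M, z, B, e, h, pp, g, gc, gT, g₀, G, H, Th, TH, Gt, Ht, hBA, hBP, E, ⟨pf, hap⟩, hpp, hchn⟩ :=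
    hA1 w A cl (fun k => by rw [hw]) hA hcl
  rw [← hU] at hap hpp hchn
  obtain ⟨Y, hY⟩ : ∃ Y, Y = ⌊y * U⌋₊ := ⟨_, rfl⟩
  rw [← hY] at hchn
  have hYR : (Y : ℝ) ≤ y * U := by
    rw [hY]
    exact Nat.floor_le (by positivity)
  obtain ⟨X, hX⟩ : ∃ X, X = 50 * cl := ⟨_, rfl⟩
  obtain ⟨Q, hQ⟩ : ∃ Q, Q = C₁ * (cl + X + Y + 1) := ⟨_, rfl⟩
  obtain ⟨Q₂, hQ₂⟩ : ∃ Q, Q = C * (cl + X + Y + 1) := ⟨_, rfl⟩
  have c1 := hap.cl1
  have c2 := hap.cl2
  have XR : (X : ℝ) = 50 * cl := by rw [hX]; push_cast; ring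
  have hCyU : 12000 * (C * (y * U)) ≤ U := by
    have h5 : 12000 * (C * y) * U = U := by rw [hyC, one_mul]
    linarith only [h5]
  have hy'U : y' * U ≤ y * U := mul_le_mul_of_nonneg_right hy'y hU0
  have QR₂ : (Q₂ : ℝ) ≤ U / 200 := by
    have h5 : (Q₂ : ℝ) = C * (cl + 50 * cl + Y + 1) := by rw [hQ₂, hX]; push_cast; ring
    rw [h5]
    have h6 : (cl : ℝ) + 50 * cl + Y + 1 ≤ 53 * (y * U) := by
      linarith only [c1, hyU, hCR, hYR, hy'U]
    have h7 := mul_le_mul_of_nonneg_left h6 hC0.le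
    linarith only [h7, hCyU, hU0]
  have hQQ : Q ≤ Q₂ := by
    rw [hQ, hQ₂]
    exact Nat.mul_le_mul_right _ (by omega)
  have QR : (Q : ℝ) ≤ U / 100 := by
    have : (Q : ℝ) ≤ Q₂ := by exact_mod_cast hQQ
    linarith only [this, QR₂, hU0]
  have hX20 : 20 * (y' * U) ≤ X := by rw [XR]; linarith only [c2, hyU, hCR]
  have y3 : y' ≤ 1 / 1000 := by linarith only [hy1, hy'y]
  have u0 := hu1 0 (by norm_num)
  have u1 := hu1 1 (by norm_num)
  have u2 := hu1 2 (by norm_num)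
  have u3 := hu1 3 (by norm_num)
  rw [nk0, ha₀] at u0
  rw [nk1, ha₀] at u1
  rw [nk2, ha₀] at u2
  rw [nk3, ha₀] at u3
  push_cast at u0 u1 u2 u3
  have q0 : u 0 = -(n₁ : ℝ) := by linarith only [u0]
  have q1 : u 1 = 1 := by linarith only [u1]
  have q2 : u 2 = 1 + n₁ := by linarith only [u2]
  have q3 : u 3 = 1 + 2 * n₁ := by linarith only [u3]
  have vA : ∀ k ≤ 3, u k + 1 ≤ A' := fun k hk => (hub k hk).2.1
  have vK : ∀ k ≤ 3, 2 ≤ K + u k := fun k hk => (hub k hk).2.2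
  have u3A : u 3 + 1 = A' := by rw [q3, hA']; ring
  have hwa : w 1 ≤ ⌊(a : ℝ) * J⌋₊ := by
    rw [hw]
    exact Nat.floor_le_floor (mul_le_mul_of_nonneg_right
      (by rw [q1, one_mul]; exact ra1.le) hJ0)
  have heb : e 1 + Q ≤ ⌊e₂' * J⌋₊ := by
    refine nat_le_of_real ?_
    push_cast
    have h5 := Nat.lt_floor_add_one (e₂' * J)
    have h6 := mul_le_mul_of_nonneg_right R.Ebe.le hJ0
    have h7 := hap.ee 1 (by norm_num)
    have h8 : U ≤ K * U := le_mul_of_one_le_left hU0 (by linarith only [hK3])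
    have h9 : (Eb + 3 * K * q) * J = Eb * J + 3 * (K * U) := by rw [hU]; ring
    rw [h9] at h6
    linarith only [h5, h6, h7, h8, QR, hap.yUs y3, hyU, hCR, hU0]
  have hcp : ∀ k ≤ 3, (cl : ℝ) ≤ pp k := fun k hk => by
    have h5 := hpp k hk
    have h6 := hap.lw hk le_rfl (vK k hk) y3
    linarith only [h5, h6, c1, hap.yUs y3, hU0]
  have hBN : ∀ i ≤ 3, ∀ j ≤ 3, u i ≤ u j → BNum 3 3 A cl X w pp gc gT g₀ i j :=
    fun i hi j hj hij => { hap.BN hX20 le_rfl k1 k2 hi hj hij (vK i hi) (vK j hj) y3 (vA i hi)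
      (vA j hj) with cp := nat_le_of_real (hcp j hj) }
  have hg2' : 1 ≤ (Sl 2 - 2) * (n₁ : ℝ) := hg2
  have hs20 : 0 < Sl 2 - 2 := by linarith only [h2]
  have hkq : ∀ x, x = 0 ∨ x = 1 ∨ x = 2 → gT 3 1 + g₀ x 2 ≤ g₀ 3 2 + (A - w 3) + g₀ x 1 + X ∧
      g₀ 3 1 + g₀ x 2 ≤ g₀ 3 2 + g₀ x 1 + X := fun x hx => by
    have hx2 : x ≤ 2 := by omega
    have hxu : u x ≤ 1 + n₁ := by
      rcases hx with rfl | rfl | rfl
      · rw [q0]; linarith only [hn₁R]
      · rw [q1]; linarith only [hn₁R]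
      · rw [q2]
    refine hap.kqn hX20 le_rfl k1 h1 (by omega) le_rfl u3A ?_ (by rw [q3]; linarith only [hxu, hn₁R])
    rw [q3]
    have h5 : (Sl 2 - 2) * (n₁ : ℝ) ≤ (Sl 2 - 2) * (1 + 2 * n₁ - u x) :=
      mul_le_mul_of_nonneg_left (by linarith only [hxu]) hs20.le
    linarith only [h5, hg2']
  have hgT11 : A - w 1 ≤ gT 1 1 - g₀ 1 1 ∧ g₀ 1 1 ≤ gT 1 1 := by
    have a1 := (hap.gs 1 (by norm_num) 1 (by norm_num) k1).1
    have b1 := (hap.ga 1 (by norm_num) 1 (by norm_num)).2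
    have d1 := hap.A2
    have d2 := (hap.w1 1 (by norm_num)).1
    rw [h1] at a1 b1
    rw [q1] at b1 d2
    have h5 : U ≤ (A' - 1) * U := le_mul_of_one_le_left hU0 (by linarith only [hA4])
    have h6 : (g₀ 1 1 : ℝ) + (A - w 1 : ℕ) ≤ gT 1 1 := by
      rw [hap.cA (by norm_num)]
      linarith only [a1, b1, d1, d2, h5, hap.yUs y3, hU0, hyU, hCR]
    have h7 : g₀ 1 1 + (A - w 1) ≤ gT 1 1 := by exact_mod_cast h6
    omega
  have hex2 : ∀ i ≤ 3, gT 1 1 + g₀ 1 2 + Q ≤ gT i 2 + g₀ 1 1 := fun i hi => by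
    refine nat_le_of_real ?_
    push_cast
    have a1 := (hap.gs 1 (by norm_num) 1 (by norm_num) k1).2
    have a2 := (hap.gs i hi 2 (by norm_num) k2).1
    have b1 := (hap.ga 1 (by norm_num) 1 (by norm_num)).1
    have b2 := (hap.ga 1 (by norm_num) 2 (by norm_num)).2
    rw [h1] at a1 b1
    rw [q1] at b1 b2
    have h5 : (Sl 2 - 2) * n₁ * U ≤ (Sl 2 - 2) * (A' - 1) * U := mul_le_mul_of_nonneg_right
      (mul_le_mul_of_nonneg_left (by linarith only [hA', hn₁R]) hs20.le) hU0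
    have h6 := mul_le_mul_of_nonneg_right hg2' hU0
    linarith only [a1, a2, b1, b2, h5, h6, QR, hap.yUs y3, hU0]
  have hSN : SNum J 3 3 A cl X Q w e pp gc gT g₀ 0 1 2 3 ⌊(a : ℝ) * J⌋₊ ⌊e₂' * J⌋₊
      ⌊(bet P₂ c 0 a a + y' * q) * J⌋₊ ⌊(bet P₂ c 2 a a + y' * q) * J⌋₊ :=
    { ik := hBN 0 (by norm_num) 1 (by norm_num) (hub 1 (by norm_num)).1
      kk := hBN 1 (by norm_num) 1 (by norm_num) le_rfl
      ij := hBN 0 (by norm_num) 2 (by norm_num) (hub 2 (by norm_num)).1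
      il := hBN 0 (by norm_num) 3 (by norm_num) (hub 3 (by norm_num)).1
      kl := hBN 1 (by norm_num) 3 (by norm_num) (by rw [q1, q3]; linarith only [hn₁R])
      lbj := by
        refine nat_le_of_real ?_
        push_cast
        rw [hap.cA (by norm_num)]
        have a1 := (hap.gs 0 (by norm_num) 1 (by norm_num) k1).1
        have b1 := (hap.ga 2 (by norm_num) 1 (by norm_num)).2
        have d1 := hap.A2
        have d2 := (hap.w1 2 (by norm_num)).1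
        rw [h1] at a1 b1
        have h5 : 0 ≤ (A' - u 2) * U := mul_nonneg (by linarith only [vA 2 (by norm_num)]) hU0
        linarith only [a1, b1, d1, d2, h5, hX20, hyU, hCR]
      qx := fun x hx => hkq x (by omega)
      K1 := hwa
      ex := ⟨gT 1 1 - g₀ 1 1, hgT11.1, by omega, by
        have := hex2 0 (by norm_num)
        omega, by
        have := hex2 1 (by norm_num)
        omega⟩
      g0 := fun x hx => nat_le_of_real (by
        linarith only [hap.g00 (k := 1) (l := x) (by norm_num) (by omega) (vK 1 (by norm_num)) y3,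
          QR, hU0])
      rm := fun x hx => hap.rm (by norm_num) (by omega) (by rw [q1]; linarith only [hK3]) QR
        (by linarith only [hK3]) y3
      ef := heb
      f0 := hap.thr hX20 (by norm_num) (by norm_num) q1 hwa (by
        have := rn 0 (by norm_num) J
        rw [← hU] at this
        exact this)
      f2 := hap.thr hX20 (by norm_num) (by norm_num) q1 hwa (by
        have := rn 2 (by norm_num) J
        rw [← hU] at this
        exact this)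
      wt := by
        refine hap.wt2 QR (by norm_num) (by norm_num) (by norm_num) (by norm_num) ?_ y3
        rw [q1, q2, h0]
        have e5 : (Sl 2 - 1 - 1) * (1 + (n₁ : ℝ) - 1) = (Sl 2 - 2) * n₁ := by ring
        rw [e5]
        exact hg2' }
  -- the time-scale of the exact point
  have hB0 : 0 < Pe F.p B := by
    by_contra hcon
    have : Pe F.p A₀ ≤ 0 := hBP.trans (mul_nonpos_of_nonneg_of_nonpos hK₁.le (not_lt.1 hcon))
    linarith only [this, hA0]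
  have h6 : 1 / K₁ * Pe F.p A₀ ≤ Pe F.p B := by
    rw [div_mul_eq_mul_div, one_mul, div_le_iff₀ hK₁]
    linarith only [hBP]
  have hTm := hA3 B hBA h6 hB0
  have hcl2 : y' * U / 2 ≤ cl := by linarith only [c2, hyU, hCR]
  have hmain : C₂ * (ε₁ * J + 1) ≤ y' * U / 2 * Real.log 2 := by
    have e1 : C₂ * (ε₁ * J) = y' * q * Real.log 2 * J / 4 := by
      rw [hε₁]
      field_simp
    have e2 : y' * U / 2 * Real.log 2 = y' * q * Real.log 2 * J / 2 := by rw [hU]; ring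
    rw [mul_add, mul_one, e1, e2]
    linarith only [hJC]
  have hexp : Real.exp (C₂ * (ε₁ * J + 1)) ≤ 2 ^ cl := by
    have e2 : Real.exp (C₂ * (ε₁ * J + 1)) ≤ Real.exp (cl * Real.log 2) :=
      Real.exp_le_exp.2 (hmain.trans (mul_le_mul_of_nonneg_right hcl2 hL2.le))
    rw [mul_comm (cl : ℝ), ← Real.rpow_def_of_pos (by norm_num), Real.rpow_natCast] at e2
    exact e2
  have htt : ∀ j ≤ 3, C₂ * (ε₁ * J + 1) ≤ ((J : ℝ) - w j) * Real.log 2 := fun j hj => by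
    refine hmain.trans (mul_le_mul_of_nonneg_right ?_ hL2.le)
    have d1 : (w j : ℝ) ≤ A := by exact_mod_cast hap.wA j hj
    have d2 := hap.A2
    have d3 := mul_le_mul_of_nonneg_right R.t1.le hJ0
    have e1 : (t + K * q) * J = t * J + K * U := by rw [hU]; ring
    rw [e1, one_mul] at d3
    have d4 : A' * U + U ≤ K * U := by
      have := mul_le_mul_of_nonneg_right (show A' + 1 ≤ K by linarith only [hK, hn₁R]) hU0
      linarith only [this]
    have d5 : y' * U ≤ U := by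
      have := hap.yUs y3
      linarith only [this, hU0]
    linarith only [d1, d2, d3, d4, d5, hU0]
  -- the fine or the coarse ball
  rw [hQ] at hSN
  have hbad := hA2 E hBA (X := X) (Y := Y) (i := 0) (k := 1) (j := 2) (l := 3) (by
      have : y' * q / 2 * J = y' * U / 2 := by rw [hU]; ring
      rw [this]
      exact hcl2) (nat_le_of_real (by
        have e1 : (C₁ : ℝ) ≤ C := by exact_mod_cast (by omega : C₁ ≤ C)
        linarith only [c2, hyU, e1])) (by rw [k0]; simp) k1 hSN (fun ω hω x hx => by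
        exact hchn ω hω x (by omega))
  have hfin : ∀ j, j = 0 ∨ j = 2 → w j + g₀ j 1 + g₀ 1 2 + Q₂ + Q₂ ≤ w 1 + g₀ 1 1 + g₀ j 2 →
      False := fun j hj hwt => by
    have hj3 : j ≤ 3 := by omega
    have h0j : u 0 ≤ u j := (hub j hj3).1
    obtain ⟨B', d1, d2, d3⟩ := hdq E hB0 (i := 0) (j := j) (Y := 6 * (cl + X + 1) + Y) (n := cl)
      (by norm_num) hj3 (hap.mono (by norm_num) hj3 h0j) (hBN 0 (by norm_num) j hj3 h0j).cp
      (hBN 0 (by norm_num) j hj3 h0j).cr (by positivity) hTm (htt j hj3) hexp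
      (fun ω hω => E.kq le_rfl (hBN 0 (by norm_num) 3 le_rfl (hub 3 le_rfl).1) hω
        (hchn ω hω j (by omega)) (hkq j (by omega)).1 (hkq j (by omega)).2)
    have h7 : Pe F.p B' ≤ Pe F.p (fun ω => B ω ∧
        |hs (TH 0 (slam F (w 0) ω) 2) (bt F ω) (bd F ω) (uQ c)| ≤
        2 ^ (w 1 + g₀ 1 1) / 2 ^ (g₀ 1 2 + 2 * (C₁ * (cl + X + Y + 1)))) := by
      refine Pe_mono F.isLaw fun ω hω => ⟨d1 ω hω, (d3 ω hω).trans ?_⟩
      rw [← mul_div_assoc, div_le_div_iff₀ (by positivity) (by positivity), ← pow_add, ← pow_add,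
        ← pow_add]
      refine p2 ?_
      have e1 : C₂ * (cl + cl + 1) + 2 * (C₁ * (cl + X + Y + 1)) + (6 * (cl + X + 1) + Y) ≤
          Q₂ + Q₂ := by
        have e2 : C₂ * (cl + cl + 1) ≤ 2 * C₂ * (cl + X + Y + 1) := by
          have : cl + cl + 1 ≤ 2 * (cl + X + Y + 1) := by omega
          have := Nat.mul_le_mul_left C₂ this
          have e3 : C₂ * (2 * (cl + X + Y + 1)) = 2 * C₂ * (cl + X + Y + 1) := by ring
          omega
        have e3 : Q₂ = 2 * (C₁ * (cl + X + Y + 1)) + 2 * C₂ * (cl + X + Y + 1) +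
            10 * (cl + X + Y + 1) := by
          rw [hQ₂, hC]
          ring
        omega
      omega
    have h8 := h7.trans hbad.le
    have h9 : 1 / (4 * K₁) * Pe F.p A₀ = 1 / K₁ * Pe F.p A₀ / 4 := by
      field_simp
    rw [h9] at h8
    linarith only [d2, h8, h6, hB0]
  have QR₂' : (Q₂ : ℝ) ≤ U / 100 := by linarith only [QR₂, hU0]
  rcases hg3 with hg | hg
  · refine hfin 2 (Or.inr rfl) (hap.wt2 QR₂' (by norm_num) (by norm_num) (by norm_num)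
      (by norm_num) ?_ y3)
    rw [q1, q2, h1]
    have e5 : (Sl 2 - 1 - 2) * (1 + (n₁ : ℝ) - 1) = (Sl 2 - 3) * n₁ := by ring
    rw [e5]
    exact hg
  · refine hfin 0 (Or.inl rfl) (hap.wt2 QR₂' (by norm_num) (by norm_num) (by norm_num)
      (by norm_num) ?_ y3)
    rw [q1, q0, h1]
    have e5 : (Sl 2 - 1 - 2) * (-(n₁ : ℝ) - 1) = (3 - Sl 2) * n₁ + (3 - Sl 2) := by ring
    rw [e5]
    have h10 : 0 ≤ 3 - Sl 2 := by
      by_contra hcon
      have : (3 - Sl 2) * (n₁ : ℝ) ≤ 0 := mul_nonpos_of_nonpos_of_nonneg (not_le.1 hcon).le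
        (by linarith only [hn₁R])
      linarith only [this, hg]
    linarith only [hg, h10]

end Pool.STV
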