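import Pool.Agent.H14.STV.S1
import Pool.Agent.H14.STV.S2
import Pool.Agent.H14.P4J.Fst2

/-!
# The slopes of the static places

`sta1_two`: a static place one, which is not thin, has slope two, if place two has a slope above one.
`sta2_or`: if the places one and two are not thin, the slope of place two is two or three. Both for
targets of any kind. `stV_void`: there are no windows with `StV`.

`noB_ftRem2`: in dimension at most four there are no windows of `FtRem2`. `noB_ftR`: no boxes at the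
windows of `FtRem`, from P4J with static ties.
-/

set_option autoImplicit false

namespace Pool.STV

open MeasureTheory Set Filter Topology
open Pool.Agent.H49.Ent Pool.Agent.H32.Dense Pool.STK Pool.KA Pool.KSAT Pool.K2S Pool.PB
open Pool.GEN Pool.S6C Pool.STAT Pool.CHT Pool.GRW Pool.ONE Pool.STA
open Pool.LBT (LSys ThrOf)
open Pool.LEV (Law)
open Pool.TOP (TopS)
open Pool.STR (ThinAt SteepAt StaAt)
open Pool.PKG

variable {n : ℕ} {hn : 2 ≤ n} {S : PCl n} {P : ℝ → ℝ → ℝ} {r : ℝ → ℝ}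
  {P' : ℕ → List (Fin n) × Fin n → ℝ → ℝ → ℝ} {Λ : Finset (Fin n) → Fin n → ℝ → ℝ → ℝ}
  {PB : ℕ → List (Fin n) × Fin n → ℝ → ℝ → ℝ}

/-- The slope as in the records. -/
theorem slN_slL (o : Od n) {l : ℕ} (hl : l ≤ n - 1) (g : ℝ) :
    SlL hn P P' o g l = slN hn P P' o l g := (slN_lvl o hl g).symm

/-- **A static place one has slope two.** -/
theorem sta1_two (H : PkT hn S P r P' Λ PB) (hTop : TopS n) (hF : FZX (n - 1))
    (h3 : 3 ≤ n - 1) : ∀ᵐ g : ℝ, ∀ o : Od n, g ∈ Gs P r P' Λ o →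
      (∀ l < 3, ThS hn P P' PB o l g) → ¬ ThN hn P P' PB o 1 g → 1 < slN hn P P' o 2 g →
      slN hn P P' o 1 g = 2 := by
  have hone : ∀ᵐ g : ℝ, ∀ o : Od n, g ∈ Gs P r P' Λ o →
      deriv (fun a => LvL hn P P' o 0 a a) g = 1 := ae_all_iff.2 fun o => one_zero H hTop hF o
  filter_upwards [void_of H hTop hF, kd_ae H hTop hF, slo_two H hTop hF, hone]
    with g h1 h2 h4 h5 o ho hths hn1 hs2
  obtain ⟨hst, h2le⟩ := h4 o ho 1 (by omega) (fun k hk => hths k (by omega)) (hths 1 (by omega)) hn1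
  by_contra hcon
  have hlt : 2 < slN hn P P' o 1 g := lt_of_le_of_ne h2le (Ne.symm hcon)
  obtain ⟨κ₂, hκ₂⟩ := h2 o ho 3 h3 hths 2 (by norm_num)
  obtain ⟨κ, hκ⟩ : ∃ κ : ℕ → Kd, κ = fun l => if l = 0 then .one else if l = 1 then .sta else κ₂ :=
    ⟨_, rfl⟩
  have hκ0 : κ 0 = .one := by rw [hκ]; rfl
  have hκ1 : κ 1 = .sta := by rw [hκ]; rfl
  have hκ2 : κ 2 = κ₂ := by rw [hκ]; rfl
  refine h1 o ho 3 (by norm_num) h3 κ (fun l hl => ?_) (celV_s1 hκ0 hκ1 ?_ ?_ ?_)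
  · have h6 : l = 0 ∨ l = 1 ∨ l = 2 := by omega
    rcases h6 with rfl | rfl | rfl
    · rw [hκ0]
      exact h5 o ho
    · rw [hκ1]
      refine ⟨?_, hst⟩
      rw [← slN_lvl o (by omega)]
      exact h2le
    · rw [hκ2]
      exact hκ₂
  · rw [slN_slL o (by omega), slN_lvl o (by omega)]
    exact h5 o ho
  · rw [slN_slL o (by omega)]
    exact hlt
  · rw [slN_slL o (by omega)]
    exact hs2

/-- **A static place two over a static place one has slope two or three.** -/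
theorem sta2_or (H : PkT hn S P r P' Λ PB) (hTop : TopS n) (hF : FZX (n - 1))
    (h3 : 3 ≤ n - 1) : ∀ᵐ g : ℝ, ∀ o : Od n, g ∈ Gs P r P' Λ o →
      (∀ l < 3, ThS hn P P' PB o l g) → ¬ ThN hn P P' PB o 1 g → ¬ ThN hn P P' PB o 2 g →
      slN hn P P' o 1 g = 2 ∧ (slN hn P P' o 2 g = 2 ∨ slN hn P P' o 2 g = 3) := by
  have hone : ∀ᵐ g : ℝ, ∀ o : Od n, g ∈ Gs P r P' Λ o →
      deriv (fun a => LvL hn P P' o 0 a a) g = 1 := ae_all_iff.2 fun o => one_zero H hTop hF o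
  filter_upwards [void_of H hTop hF, sta1_two H hTop hF h3, slo_two H hTop hF, hone]
    with g h1 h2 h4 h5 o ho hths hn1 hn2
  obtain ⟨hst1, h1le⟩ := h4 o ho 1 (by omega) (fun k hk => hths k (by omega)) (hths 1 (by omega))
    hn1
  obtain ⟨hst2, h2le⟩ := h4 o ho 2 (by omega) (fun k hk => hths k (by omega)) (hths 2 (by omega))
    hn2
  have e1 := h2 o ho hths hn1 (by linarith)
  refine ⟨e1, ?_⟩
  by_contra hcon
  push Not at hcon
  have hlt : 2 < slN hn P P' o 2 g := lt_of_le_of_ne h2le (Ne.symm hcon.1)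
  obtain ⟨κ, hκ⟩ : ∃ κ : ℕ → Kd, κ = fun l => if l = 0 then .one else .sta := ⟨_, rfl⟩
  have hκ0 : κ 0 = .one := by rw [hκ]; rfl
  have hκ1 : κ 1 = .sta := by rw [hκ]; rfl
  have hκ2 : κ 2 = .sta := by rw [hκ]; rfl
  refine h1 o ho 3 (by norm_num) h3 κ (fun l hl => ?_) (celV_s2 hκ0 hκ1 hκ2 ?_ ?_ ?_ ?_)
  · have h6 : l = 0 ∨ l = 1 ∨ l = 2 := by omega
    rcases h6 with rfl | rfl | rfl
    · rw [hκ0]
      exact h5 o ho
    · rw [hκ1]
      refine ⟨?_, hst1⟩
      rw [← slN_lvl o (by omega)]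
      exact h1le
    · rw [hκ2]
      refine ⟨?_, hst2⟩
      rw [← slN_lvl o (by omega)]
      exact h2le
  · rw [slN_slL o (by omega), slN_lvl o (by omega)]
    exact h5 o ho
  · rw [slN_slL o (by omega)]
    exact e1
  · rw [slN_slL o (by omega)]
    exact hlt
  · rw [slN_slL o (by omega)]
    exact hcon.2

/-- **There are no windows with a static place of a wrong slope.** -/
theorem stV_void (H : PkT hn S P r P' Λ PB) (hTop : TopS n) (hF : FZX (n - 1))
    (h3 : 3 ≤ n - 1) : ∀ᵐ g : ℝ, ∀ o : Od n, g ∈ Gs P r P' Λ o →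
      (∀ l < 3, ThS hn P P' PB o l g) → 1 < slN hn P P' o 2 g → ¬ StV hn P P' PB o g := by
  filter_upwards [sta1_two H hTop hF h3, sta2_or H hTop hF h3] with g h1 h2 o ho hths hs2 hV
  obtain ⟨hn1, hV⟩ := hV
  have e1 := h1 o ho hths hn1 hs2
  rcases hV with hV | ⟨hn2, a1, a2⟩
  · linarith
  · obtain ⟨-, e2 | e2⟩ := h2 o ho hths hn1 hn2
    · linarith
    · linarith

end Pool.STV

namespace Pool.ASM

open MeasureTheory Set Filter Topology
open Pool.Agent.H49.Ent Pool.Agent.H32.Dense Pool.STK Pool.KA Pool.KSAT Pool.K2S Pool.PB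
open Pool.GEN Pool.S6C Pool.GRW Pool.PKG Pool.STAT Pool.PM Pool.R1 Pool.Z4
open Pool.ONE (LocE Ext0 Ext rowN_of_ext)
open Pool.TOP (TopS rw_all)
open Pool.LEV (Law Lv)
open Pool.STR (NumI TopW Mac StaAt IsoAt StaU1 ThinAt SteepAt Rle)
open Pool.MIC6
open Pool.SW (TopC NtO OneS NoTie Rgh Xa TieO)

variable {n : ℕ} {hn : 2 ≤ n} {S : PCl n} {P : ℝ → ℝ → ℝ} {r : ℝ → ℝ}
  {P' : ℕ → List (Fin n) × Fin n → ℝ → ℝ → ℝ} {Λ : Finset (Fin n) → Fin n → ℝ → ℝ → ℝ}
  {PB : ℕ → List (Fin n) × Fin n → ℝ → ℝ → ℝ}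

/-- The windows with a tie and a faster coordinate are in dimension four, and the place two has a
slope above one. -/
theorem ftWX_four {X : WinC} (hn4 : n ≤ 4) (H : PkT hn S P r P' Λ PB) (hTop : TopS n)
    (hF : FZX (n - 1)) (o : Od n) :
    ∀ᵐ g : ℝ, g ∈ Gs P r P' Λ o → FtWX X H hTop hF o g → n = 4 ∧ 1 < slN hn P P' o 2 g := by
  filter_upwards [one_zero H hTop hF o] with g k1 ho hx
  obtain ⟨⟨hT, hA⟩, -⟩ := hx
  have hs0 : slN hn P P' o 0 g = 1 := by
    rw [slN_lvl o (by omega)]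
    exact k1 ho
  obtain ⟨a, a1, a2, a3⟩ := hT.tie
  have hone := hT.one
  obtain ⟨b, hb, hbs⟩ : ∃ b < n - 1, slN hn P P' o (n - 1) g < slN hn P P' o b g := by
    by_contra hcon
    push Not at hcon
    refine hA ⟨by
      have := hone
      rwa [slN_tar] at this, fun j => ?_⟩
    have h1 := hcon j j.2
    rw [slN_tar] at h1
    rw [slo_slN]
    exact h1
  have hb0 : b ≠ 0 := by
    rintro rfl
    rw [hs0] at hbs
    linarith
  have hab : a ≠ b := by
    rintro rfl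
    linarith
  have h4 : n = 4 := by omega
  refine ⟨h4, ?_⟩
  have hcase : a = 2 ∨ b = 2 := by omega
  rcases hcase with rfl | rfl
  · rw [a3]
    exact hone
  · linarith

/-- **There are no windows of** `FtRem2` in dimension at most four. -/
theorem noB_ftRem2 {X : WinC} (hn4 : n ≤ 4) (H : PkT hn S P r P' Λ PB) (hTop : TopS n)
    (hF : FZX (n - 1)) {ρ : ℝ → ℝ} {hρ : Rle r ρ} {h : ℝ} :
    NoB H hTop hF hρ h (FtRem2 X H hTop hF) := by
  by_cases h4 : n = 4
  · subst h4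
    refine noB_false fun o => ?_
    filter_upwards [ftWX_four (X := X) hn4 H hTop hF o, ftRem2_st (X := X) H hTop hF o,
      Pool.STV.stV_void H hTop hF (by norm_num)] with g k1 k2 k3 R hx
    have hW := hx.1.1.1
    exact k3 o R.mem (fun l hl => hW.1.1.ths l (by omega)) (k1 R.mem hW).2 (k2 R.mem hx)
  · refine noB_false fun o => ?_
    filter_upwards [ftWX_four (X := X) hn4 H hTop hF o] with g k1 R hx
    exact h4 (k1 R.mem hx.1.1.1).1

/-- **No boxes at the windows of** `FtRem`, from P4J with static ties. -/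
theorem noB_ftR {X : WinC} {H : PkT hn S P r P' Λ PB} {hTop : TopS n} {hF : FZX (n - 1)}
    (hn4 : n ≤ 4) (hFk : ∀ k, 1 ≤ k → k < n → FZX k) {h : ℝ} (hh : 0 < h) (hh1 : h ≤ 1) {x : ℝ}
    (hJ : ∀ (K' : ℕ) (R Rn : ℕ → Prop) (c : ℝ), 0 < c → MicX (XJR K' 1 R Rn x)
      (QJ2 R Rn (n - 1 + 1) c) (fun B => B = n + 2) (n - 1 + 1) K' h)
    {PW : ℕ → List (Fin n) × Fin n → ℝ → ℝ → ℝ}
    (hPW : ∀ j, Pool.LBT.ThrOf (Pool.CHB.chsysB n none (P' j)) S (PW j))
    (hX : ExY H hTop hF (H.rle h) h (ExWX X H hTop hF))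
    (hY : FcB H hTop hF (H.rle h) h x (FtWX X H hTop hF)) :
    NoB H hTop hF (H.rle h) h (FtRem X H hTop hF) :=
  noB_ftRem hn4 hFk hh hh1 hJ hPW hX hY (noB_ftRem2 hn4 H hTop hF)

end Pool.ASM
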