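import Pool.Agent.H14.STV.Cevx
import Pool.Agent.H14.STV.Apn
import Pool.Agent.H88.D2.Kch

/-!
# The gradient of a static place along a chain of balls, target of any kind

`RecR.dLd`, `grdR2`, `cevkR`: as `RecQ.dLd`, `grdT2`, `cevk`.
-/

set_option autoImplicit false

namespace Pool.STV

open Finset Real MvPolynomial
open Pool.Agent.H49.Ent Pool.Agent.H32.Dense Pool.STK Pool.KA Pool.KSAT Pool.K2S Pool.PB Pool.S6C
open Pool.GEN Pool.CHT Pool.CHX Pool.ISO Pool.D2R Pool.D2Z Pool.D2F Pool.TN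
open Pool.FLF (Fam.sub)
open Pool.PB.Trl (rt rt_mem t_rt)
open Pool.PKG (RecQ Kd)

section

variable {m : ℕ} {S : PCl m} {P P₂ : List (Fin m) × Fin m → ℝ → ℝ → ℝ} {θ θ₂ : ℝ}
    {c : ℕ → Fin m} {i : ℕ} {Pt : ℝ → ℝ → ℝ} {L T : ℕ → ℝ → ℝ → ℝ} {Sl : ℕ → ℝ} {kd : ℕ → Kd}
    {S₀ N : ℕ} {A V : ℕ → ℝ} {S₂ N' : ℕ} {V' : ℕ → ℝ} {Eb e₂ K ε q t : ℝ}

/-- The difference of two levels. -/
theorem RecR.dLd (R : RecR S P P₂ θ θ₂ c i Pt L T Sl kd S₀ N A V S₂ N' V' Eb e₂ K ε q t) {l : ℕ}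
    (hl : l ≤ i) {a b : ℝ} (ha : |a| ≤ K) (hb : |b| ≤ K) (J : ℕ) :
    Sl l * ((a - b) * (q * J)) - 2 * ε * (q * J) ≤
      (L l (t + a * q) (t + a * q) - L l (t + b * q) (t + b * q)) * J ∧
    (L l (t + a * q) (t + a * q) - L l (t + b * q) (t + b * q)) * J ≤
      Sl l * ((a - b) * (q * J)) + 2 * ε * (q * J) := by
  have hq := R.q0
  have hJ : (0 : ℝ) ≤ J := Nat.cast_nonneg J
  have h1 : ∀ x : ℝ, |x| ≤ K → |t + x * q - t| ≤ K * q := fun x hx => by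
    rw [add_sub_cancel_left, abs_mul, abs_of_pos hq]
    exact mul_le_mul_of_nonneg_right hx hq.le
  have h2 := abs_le.1 (R.dL l hl _ (h1 a ha))
  have h3 := abs_le.1 (R.dL l hl _ (h1 b hb))
  rw [add_sub_cancel_left] at h2 h3
  have h4 : Sl l * ((a - b) * q) - 2 * ε * q ≤
      L l (t + a * q) (t + a * q) - L l (t + b * q) (t + b * q) := by
    have : Sl l * ((a - b) * q) = Sl l * (a * q) - Sl l * (b * q) := by ring
    linarith
  have h5 : L l (t + a * q) (t + a * q) - L l (t + b * q) (t + b * q) ≤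
      Sl l * ((a - b) * q) + 2 * ε * q := by
    have : Sl l * ((a - b) * q) = Sl l * (a * q) - Sl l * (b * q) := by ring
    linarith
  have h6 := mul_le_mul_of_nonneg_right h4 hJ
  have h7 := mul_le_mul_of_nonneg_right h5 hJ
  constructor
  · calc _ = (Sl l * ((a - b) * q) - 2 * ε * q) * J := by ring
      _ ≤ _ := h6
  · calc _ ≤ (Sl l * ((a - b) * q) + 2 * ε * q) * J := h7
      _ = _ := by ring

end

/-- **The gradient over a fine chain** of the balls of the record, place `i`. -/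
theorem grdR2 (D r i : ℕ) (hi : 1 ≤ i) (hir : i ≤ r) : ∃ C : ℕ, 1 ≤ C ∧ ∀ {m : ℕ} {S : PCl m}
    {P P₂ : List (Fin m) × Fin m → ℝ → ℝ → ℝ} {θ θ₂ : ℝ} {c : ℕ → Fin m} {Pt : ℝ → ℝ → ℝ}
    {L T : ℕ → ℝ → ℝ → ℝ} {Sl : ℕ → ℝ} {kd : ℕ → Kd} {S₀ N : ℕ} {A V : ℕ → ℝ} {S₂ N' : ℕ}
    {V' : ℕ → ℝ} {Eb e₂ K ε q t : ℝ}
    (_ : RecR S P P₂ θ θ₂ c r Pt L T Sl kd S₀ N A V S₂ N' V' Eb e₂ K ε q t)
    {J Dr N₃ : ℕ} {F : Fam m J} {CB a Eb' y₁ κ : ℝ} {u : ℕ → ℝ} {b : ℕ → ℕ → ℝ} {z : ℕ → ℕ → ℕ}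
    {B : F.Ω → Prop} {g₀ : ℕ → ℕ → ℕ} {G : ℕ → PtT F → ℕ → MvPolynomial (Option (Fin m)) ℝ}
    {H : ℕ → LnT F → ℕ → MvPolynomial (Option (Fin m)) ℝ}
    (_ : WinB F c r D Dr N₃ N₃ CB a Eb' (y₁ * q) (fun k => t + u k * q) (fun _ => y₁ * q)
      (fun _ => y₁ * q) (fun k l => L l (t + u k * q) (t + u k * q)) b κ z B g₀ G H)
    {f : ℕ → ℕ} {n p k₀ Y : ℕ} {u₀ β y₂ : ℝ}, ChF u N₃ n p u₀ K f → k₀ ≤ N₃ → |u k₀| ≤ K →
    (∀ k < n, z (f k) (f (k + 1)) = ⌊(t + u (f (k + 1)) * q) * J⌋₊ -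
      ⌊(t + u (f k) * q) * J⌋₊) → 0 ≤ ε → Y = ⌊y₂ * (q * J)⌋₊ → 4 * (CB * y₁) ≤ y₂ →
    8 * y₁ ≤ y₂ → 16 * ε ≤ y₂ → 16 * β ≤ y₂ * p → 8 ≤ y₂ * (q * J) → (n : ℝ) ≤ 2 ^ Y →
    (∀ l ≤ i, |Sl l| ≤ β) →
    (∀ k < n, (Sl (i - 1) - Sl i) * (u (f k) - u k₀) ≤ 0) → ∀ ω, B ω →
    |grd (G (f n) (ptr F J ω) i) (bt F ω) (some (c (i - 1))) -
      grd (G (f 0) (ptr F J ω) i) (bt F ω) (some (c (i - 1)))| ≤
      2 ^ (C * Y) * (2 ^ g₀ k₀ (i - 1) / 2 ^ g₀ k₀ i) := by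
  obtain ⟨C, hC, h⟩ := winb_tel D r
  refine ⟨C + 2, by omega, ?_⟩
  intro m S P P₂ θ θ₂ c Pt L T Sl kd S₀ N A V S₂ N' V' Eb e₂ K ε q t R J Dr N₃ F CB a Eb' y₁ κ u b
    z B g₀ G H W f n p k₀ Y u₀ β y₂ ch hk₀ huk hz hε hY hy₁ hy₁' hεy hβ hy₂ hn hSl hslo ω hω
  have hq := R.q0
  have hJ : (0 : ℝ) ≤ J := Nat.cast_nonneg J
  obtain ⟨U, hU⟩ : ∃ U : ℝ, U = q * J := ⟨_, rfl⟩
  have hU0 : 0 ≤ U := by rw [hU]; positivity
  have hp : (0 : ℝ) < p := by exact_mod_cast ch.p1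
  have hYl : y₂ * U - 1 ≤ Y := by
    rw [hY, hU]
    linarith [Nat.lt_floor_add_one (y₂ * (q * J))]
  rw [← hU] at hy₂
  have hY7 : y₂ * U / 2 + 3 ≤ Y := by linarith
  have hβp : β / p ≤ y₂ / 16 := by
    rw [div_le_iff₀ hp]
    linarith
  have hβ0 : 0 ≤ β := (abs_nonneg _).trans (hSl i le_rfl)
  have hβU : 2 * (β / p) * U ≤ y₂ * U / 8 := by
    have := mul_le_mul_of_nonneg_right hβp hU0
    linarith
  have hεU : 2 * ε * U ≤ y₂ * U / 8 := by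
    have := mul_le_mul_of_nonneg_right hεy hU0
    linarith
  have hy₁U : 2 * y₁ * U ≤ y₂ * U / 4 := by
    have := mul_le_mul_of_nonneg_right hy₁' hU0
    linarith
  have hβU0 : 0 ≤ β / p * U := by positivity
  have hlv : ∀ k ≤ n, ∀ k' ≤ n, ∀ l ≤ i, Sl l * ((u (f k) - u (f k')) * U) - 2 * ε * U ≤
      (L l (t + u (f k) * q) (t + u (f k) * q) - L l (t + u (f k') * q) (t + u (f k') * q)) * J ∧
      (L l (t + u (f k) * q) (t + u (f k) * q) - L l (t + u (f k') * q) (t + u (f k') * q)) * J ≤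
      Sl l * ((u (f k) - u (f k')) * U) + 2 * ε * U := by
    intro k hk k' hk' l hl
    rw [hU]
    exact RecR.dLd R (hl.trans hir) (ch.fK k hk) (ch.fK k' hk') J
  have hstepS : ∀ l ≤ i, |Sl l * (1 / p * U)| ≤ β / p * U := by
    intro l hl
    rw [abs_mul, abs_of_nonneg (show (0 : ℝ) ≤ 1 / p * U by positivity)]
    calc _ ≤ β * (1 / p * U) := mul_le_mul_of_nonneg_right (hSl l hl) (by positivity)
      _ = _ := by ring
  have hCBq : CB * (y₁ * q * J) ≤ Y := by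
    have h1 : CB * (y₁ * q * J) = CB * y₁ * U := by rw [hU]; ring
    have h2 := mul_le_mul_of_nonneg_right hy₁ hU0
    rw [h1]
    linarith
  have hnum : ∀ k ≤ N₃, ∀ l ≤ i, L l (t + u k * q) (t + u k * q) * J - y₁ * U ≤ g₀ k l ∧
      (g₀ k l : ℝ) ≤ L l (t + u k * q) (t + u k * q) * J := fun k hk l hl => by
    obtain ⟨h1, h2⟩ := W.sds k hk l (hl.trans hir)
    refine ⟨?_, h2⟩
    have : (L l (t + u k * q) (t + u k * q) - y₁ * q) * J =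
        L l (t + u k * q) (t + u k * q) * J - y₁ * U := by rw [hU]; ring
    linarith
  have hmain := h W (f := f) (jj := fun k => f (k + 1)) (n := n) (i := i)
    (ρ := 2 ^ Y * (2 ^ g₀ k₀ (i - 1) / 2 ^ g₀ k₀ i)) R.inj hi hir ch.fN
    (fun k hk => ⟨ch.fN (k + 1) hk, hz k hk, by
      have h1 : u (f k) ≤ u (f (k + 1)) := by
        rw [← ch.le hk]
        have : (0 : ℝ) ≤ 1 / p := by positivity
        linarith
      have := mul_le_mul_of_nonneg_right h1 hq.le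
      show t + u (f k) * q ≤ t + u (f (k + 1)) * q
      linarith⟩) hCBq (by
      have : (3 : ℝ) ≤ Y := by linarith
      exact_mod_cast this)
    (fun k hk l hl => by
      have h1 := hlv (k + 1) hk k hk.le l hl
      have h2 : u (f (k + 1)) - u (f k) = 1 / p := by rw [← ch.le hk]; ring
      rw [h2] at h1
      have h3 := abs_le.1 (hstepS l hl)
      constructor
      · linarith [h1.2, h3.2]
      · have h4 : (L l (t + u (f k) * q) (t + u (f k) * q) -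
          L l (t + u (f (k + 1)) * q) (t + u (f (k + 1)) * q)) * J =
          -((L l (t + u (f (k + 1)) * q) (t + u (f (k + 1)) * q) -
            L l (t + u (f k) * q) (t + u (f k) * q)) * J) := by ring
        rw [h4]
        linarith [h1.1, h3.1])
    (fun k hk => by
      rw [div_le_iff₀ (by positivity)]
      have e1 : (2 : ℝ) ^ Y * (2 ^ g₀ k₀ (i - 1) / 2 ^ g₀ k₀ i) * 2 ^ g₀ (f k) i =
          2 ^ (Y + g₀ k₀ (i - 1) + g₀ (f k) i) / 2 ^ g₀ k₀ i := by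
        rw [pow_add, pow_add]
        ring
      rw [e1, le_div_iff₀ (by positivity), ← pow_add]
      refine pow_le_pow_right₀ (by norm_num) ?_
      have h1 := (hnum (f k) (ch.fN k hk.le) (i - 1) (by omega)).2
      have h2 := (hnum (f k) (ch.fN k hk.le) i le_rfl).1
      have h3 := (hnum k₀ hk₀ (i - 1) (by omega)).1
      have h4 := (hnum k₀ hk₀ i le_rfl).2
      have h5 := (RecR.dLd R (show i - 1 ≤ r by omega) (ch.fK k hk.le) huk J).2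
      have h6 := (RecR.dLd R hir (ch.fK k hk.le) huk J).1
      rw [← hU] at h5 h6
      have h7 := mul_le_mul_of_nonneg_right (hslo k hk) hU0
      have h8 : ((g₀ (f k) (i - 1) + g₀ k₀ i : ℕ) : ℝ) ≤
          ((Y + g₀ k₀ (i - 1) + g₀ (f k) i : ℕ) : ℝ) := by
        push_cast
        have h9 : (Sl (i - 1) - Sl i) * (u (f k) - u k₀) * U =
          Sl (i - 1) * ((u (f k) - u k₀) * U) - Sl i * ((u (f k) - u k₀) * U) := by ring
        linarith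
      exact_mod_cast h8) ω hω
  refine hmain.trans ?_
  have e2 : (2 : ℝ) ^ ((C + 2) * Y) = 2 ^ Y * (2 ^ (C * Y) * 2 ^ Y) := by
    rw [← pow_add, ← pow_add]
    congr 1
    ring
  rw [e2]
  have p1 : (0 : ℝ) ≤ 2 ^ (C * Y) * (2 ^ Y * (2 ^ g₀ k₀ (i - 1) / 2 ^ g₀ k₀ i)) := by positivity
  calc _ ≤ 2 ^ Y * (2 ^ (C * Y) * (2 ^ Y * (2 ^ g₀ k₀ (i - 1) / 2 ^ g₀ k₀ i))) :=
        mul_le_mul_of_nonneg_right hn p1
    _ = _ := by ring


/-- **The event of the windows with the chains of the place two**: the windows `u k = a + nk k`, the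
chain `a + k / p`; the ball of the last window against the others. -/
theorem cevkR (m S₀ : ℕ) (hS₀ : 1 ≤ S₀) : ∃ D₀ : ℕ, 1 ≤ D₀ ∧
    ∀ S₂ : ℕ, S₀ ≤ S₂ → ∃ D : ℕ, D₀ ≤ D ∧ ∀ Dr : ℕ, D ≤ Dr → ∀ (Sl : ℕ → ℝ) (y gp : ℝ), 0 < y →
    y ≤ 1 / 8 → 0 < gp → (∀ l, 1 ≤ l → l ≤ 2 → 1 < Sl l) → (Sl 0 < Sl 1 ∧ Sl 0 < Sl 2) →
    Sl 1 ≤ Sl 2 → ∃ (n₀ p : ℕ) (s ε₀ y' : ℝ), 1 ≤ n₀ ∧ 1 ≤ p ∧ 0 < s ∧ (n₀ + 1) * s ≤ gp ∧
    0 < ε₀ ∧ 0 < y' ∧ y' ≤ y ∧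
    ∀ {S : PCl m} {P P₂ : List (Fin m) × Fin m → ℝ → ℝ → ℝ} {θ θ₂ : ℝ} {c : ℕ → Fin m}
    {Pt : ℝ → ℝ → ℝ} {L T : ℕ → ℝ → ℝ → ℝ} {kd : ℕ → Kd} {N : ℕ} {Al V : ℕ → ℝ} {N' : ℕ}
    {V' : ℕ → ℝ} {Eb e₂ K ε q t : ℝ},
    RecR S P P₂ θ θ₂ c 3 Pt L T Sl kd S₀ N Al V S₂ N' V' Eb e₂ K ε q t → 0 ≤ ε →
    ε ≤ ε₀ → 1 ≤ K → ∀ (A' a : ℝ) (N₁ : ℕ) (nk : ℕ → ℕ) (u : ℕ → ℝ) (Sc : ℕ → Prop), A' ≤ K →
    (∀ k ≤ N₁, u k = a + nk k) → (∀ k ≤ nk N₁ * p, u (N₁ + 1 + k) = a + k / p) →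
    (∀ k < N₁, nk k < nk N₁) →
    (∀ k ≤ N₁, -K + 1 ≤ u k ∧ u k + gp ≤ A') → -K + 1 ≤ a →
    (∀ k ≤ N₁, ∃ j < N, Al j = A' ∧ V j = u k) →
    (∀ k ≤ nk N₁ * p, ∃ j < N', V' j = a + k / p) →
    (∀ k ≤ N₁, ∀ j, 1 ≤ j → j ≤ n₀ → ∃ j' < N', V' j' = u k + j * s) →
    (∀ l < 3, ¬ Sc l → kd l = .one ∨ kd l = .thin) → (∀ l < 3, Sc l → kd l = .sta) →
    ∃ K₁ : ℝ, 0 < K₁ ∧ ∀ κ : ℝ, 0 < κ → Bas S (fun J F A₀ =>
      ∀ (w : ℕ → ℕ) (A cl : ℕ), (∀ k, w k = ⌊(t + u k * q) * J⌋₊) →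
      A = ⌊(t + A' * q) * J⌋₊ → cl = ⌊y' * q * J⌋₊ →
      ∃ (M : ℕ) (z : ℕ → ℕ → ℕ) (B : F.Ω → Prop) (e h pp : ℕ → ℕ) (g gc gT g₀ : ℕ → ℕ → ℕ)
        (G : ℕ → PtT F → ℕ → MvPolynomial (Option (Fin m)) ℝ)
        (H : ℕ → LnT F → ℕ → MvPolynomial (Option (Fin m)) ℝ)
        (Th : ℕ → PtT F → ℕ → MvPolynomial (Option (Fin m)) ℝ)
        (TH : ℕ → LnT F → ℕ → MvPolynomial (Option (Fin m)) ℝ)
        (Gt : ℕ → PtT F → MvPolynomial (Option (Fin m)) ℝ)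
        (Ht : ℕ → LnT F → MvPolynomial (Option (Fin m)) ℝ), Sub B A₀ ∧
        Pe F.p A₀ ≤ K₁ * Pe F.p B ∧
        CEv F c 3 D Dr N₁ M A cl Sc w e h pp z g gc gT g₀ κ B G H Th TH Gt Ht ∧
        (∃ pf : ℕ → ℕ, ApN 3 N₁ J A cl Sc w e pf g gc gT g₀ (q * J) y' (t * J) (Eb * J) K A' u Sl
          (fun l => L l t t * J)) ∧
        (∀ k ≤ N₁, L 3 t t * J + Sl 3 * u k * (q * J) - 4 * (y' * (q * J)) ≤ pp k) ∧
        ∀ ω, B ω → ∀ k < N₁, |gG G ω N₁ 2 (some (c 1)) - gG G ω k 2 (some (c 1))| ≤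
          2 ^ ⌊y * (q * J)⌋₊ * (2 ^ g₀ k 1 / 2 ^ g₀ k 2)) := by
  obtain ⟨D₀, hD₀, hcev⟩ := RecR.cevx m 3 S₀ (by norm_num) le_rfl hS₀
  refine ⟨D₀, hD₀, fun S₂ hSS => ?_⟩
  obtain ⟨D, hDD, hcev⟩ := hcev S₂ hSS
  refine ⟨D, hDD, fun Dr hDr => ?_⟩
  obtain ⟨CB, hCB, hcev⟩ := hcev Dr hDr
  obtain ⟨Ca, hCa, htl⟩ := grdR2 D 3 2 (by norm_num) (by norm_num)
  intro Sl y gp hy hy8 hgp hs1 hs3 hs12
  have hCaR : (1 : ℝ) ≤ Ca := by exact_mod_cast hCa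
  obtain ⟨β, hβ⟩ : ∃ β : ℝ, β = 1 + ∑ l ∈ range 4, |Sl l| := ⟨_, rfl⟩
  have hβ1 : ∀ l ≤ 3, |Sl l| ≤ β := by
    intro l hl
    have := Finset.single_le_sum (f := fun l => |Sl l|) (fun _ _ => abs_nonneg _)
      (Finset.mem_range.2 (show l < 4 by omega))
    rw [hβ]
    linarith only [this]
  have hβ0 : 0 < β := by
    have := (abs_nonneg _).trans (hβ1 0 (by norm_num))
    rw [hβ]
    have : 0 ≤ ∑ l ∈ range 4, |Sl l| := Finset.sum_nonneg fun _ _ => abs_nonneg _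
    linarith only [this]
  obtain ⟨y₂, hy₂⟩ : ∃ y₂ : ℝ, y₂ = y / (2 * (Ca + 1)) := ⟨_, rfl⟩
  have hy₂0 : 0 < y₂ := by
    rw [hy₂]
    positivity
  have hy₂a : (Ca + 1) * y₂ = y / 2 := by
    rw [hy₂]
    field_simp
  have hy₂y : y₂ ≤ y := by
    have : y₂ ≤ (Ca + 1) * y₂ := le_mul_of_one_le_left hy₂0.le (by linarith only [hCaR])
    linarith only [this, hy₂a, hy]
  obtain ⟨y', hy'⟩ : ∃ y' : ℝ, y' = y₂ / 8 := ⟨_, rfl⟩
  have hy'0 : 0 < y' := by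
    rw [hy']
    positivity
  obtain ⟨n₀, s, ε₀, y₁, hn₀, hs, hns, hε₀, hy₁, hCBy, hcev⟩ :=
    hcev Sl y' gp hy'0 (by linarith only [hy', hy₂y, hy8, hy₂0]) hgp (fun l h1 h2 _ => hs1 l h1 h2)
      (fun _ => hs3)
  have hy₁y : y₁ ≤ y' := (le_mul_of_one_le_left hy₁.le hCB).trans hCBy
  obtain ⟨p, hp⟩ := exists_nat_ge (max (16 * β / y₂) (1 / gp))
  have hp1 : 16 * β ≤ y₂ * p := by
    have h1 := (le_max_left _ _).trans hp
    rw [div_le_iff₀ hy₂0] at h1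
    linarith only [h1]
  have hpR : (0 : ℝ) < p := by
    by_contra hcon
    have : y₂ * (p : ℝ) ≤ 0 := mul_nonpos_of_nonneg_of_nonpos hy₂0.le (not_lt.1 hcon)
    linarith only [this, hp1, hβ0]
  have hp0 : 1 ≤ p := by
    have : 0 < p := by exact_mod_cast hpR
    omega
  have hpg : 1 / (p : ℝ) ≤ gp := by
    have h1 := (le_max_right _ _).trans hp
    rw [div_le_iff₀ hgp] at h1
    rw [div_le_iff₀ hpR]
    linarith only [h1]
  refine ⟨n₀, p, s, min ε₀ (y' / 4), y', hn₀, hp0, hs, hns, lt_min hε₀ (by positivity), hy'0,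
    by linarith only [hy', hy₂y, hy₂0], ?_⟩
  intro S P P₂ θ θ₂ c Pt L T kd N Al V N' V' Eb e₂ K ε q t R hε hεε hK A' a N₁ nk u Sc hAK hu v2 hnk hub
    haK hmn hxt hch hSc hst
  have hεa : ε ≤ ε₀ := hεε.trans (min_le_left _ _)
  have hεb : ε ≤ y' / 4 := hεε.trans (min_le_right _ _)
  have hq := R.q0
  have ht0 := R.t0
  have ht1 := R.t1
  obtain ⟨N₃, hN₃⟩ : ∃ N₃, N₃ = N₁ + 1 + nk N₁ * p := ⟨_, rfl⟩
  have hcs : ∀ k ≤ N₃, k ≤ N₁ ∨ ∃ j ≤ nk N₁ * p, k = N₁ + 1 + j := fun k hk => by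
    rcases Nat.lt_or_ge N₁ k with h | h
    · exact Or.inr ⟨k - (N₁ + 1), by omega, by omega⟩
    · exact Or.inl h
  have hchb : ∀ k ≤ nk N₁ * p, a ≤ (a + k / p : ℝ) ∧ (a + k / p : ℝ) ≤ u N₁ := fun k hk => by
    have h1 : (0 : ℝ) ≤ k / p := by positivity
    have h2 : (k : ℝ) / p ≤ nk N₁ := by
      rw [div_le_iff₀ hpR]
      exact_mod_cast hk
    rw [hu N₁ le_rfl]
    constructor
    · linarith only [h1]
    · linarith only [h2]
  have hvb : ∀ k ≤ N₃, -K + 1 ≤ u k ∧ u k + gp ≤ A' := by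
    intro k hk
    rcases hcs k hk with h | ⟨j, hj, rfl⟩
    · exact hub k h
    · rw [v2 j hj]
      have h1 := hchb j hj
      have h2 := (hub N₁ le_rfl).2
      constructor
      · linarith only [h1.1, haK]
      · linarith only [h1.2, h2]
  obtain ⟨r', hr'⟩ : ∃ r' : ℝ, r' = 1 / p / 2 := ⟨_, rfl⟩
  have hr'0 : 0 < r' := by rw [hr']; positivity
  obtain ⟨K₁, hK₁, hcev⟩ := hcev R hε hεa hK A' r' N₁ N₃ N₃ u Sc hAK hr'0 (by omega)
    hvb hmn (fun k h1 h2 => by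
      rcases hcs k h2 with h | ⟨j, hj, rfl⟩
      · omega
      · rw [v2 j hj]
        exact hxt j hj) hch hSc
  refine ⟨K₁, hK₁, fun κ hκ => ?_⟩
  have hB1 := hcev κ hκ
  -- large J
  obtain ⟨n, hn⟩ : ∃ n, n = nk N₁ * p := ⟨_, rfl⟩
  have hyq : 0 < y₂ * q := mul_pos hy₂0 hq
  have hy'q : 0 < y' * q := mul_pos hy'0 hq
  obtain ⟨J₁, hJ₁⟩ := exists_nat_ge ((8 + n) / (y₂ * q))
  obtain ⟨J₂, hJ₂⟩ := exists_nat_ge (2 / (y' * q))
  obtain ⟨J₃, hJ₃⟩ := exists_nat_ge (1 / (r' * q))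
  refine Bas.mono (max (max J₁ J₂) J₃) hB1 ?_
  rintro J hJ F A₀ hA1
  intro w A cl hw hA hcl
  have hJ0 : (0 : ℝ) ≤ J := Nat.cast_nonneg J
  have hJa : 8 + n ≤ y₂ * (q * J) := by
    have h1 : (J₁ : ℝ) ≤ J := by
      exact_mod_cast ((le_max_left _ _).trans (le_max_left _ _)).trans hJ
    have h2 := hJ₁.trans h1
    rw [div_le_iff₀ hyq] at h2
    linarith only [h2]
  have hJb : 2 ≤ y' * (q * J) := by
    have h1 : (J₂ : ℝ) ≤ J := by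
      exact_mod_cast ((le_max_right _ _).trans (le_max_left _ _)).trans hJ
    have h2 := hJ₂.trans h1
    rw [div_le_iff₀ hy'q] at h2
    linarith only [h2]
  have hJc : 1 ≤ r' * (q * J) := by
    have h1 : (J₃ : ℝ) ≤ J := by
      exact_mod_cast (le_max_right _ _).trans hJ
    have h2 := hJ₃.trans h1
    rw [div_le_iff₀ (mul_pos hr'0 hq)] at h2
    linarith only [h2]
  have hn0 : (0 : ℝ) ≤ n := Nat.cast_nonneg n
  obtain ⟨Y, hY⟩ : ∃ Y : ℕ, Y = ⌊y₂ * (q * J)⌋₊ := ⟨_, rfl⟩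
  have hYl : y₂ * (q * J) - 1 ≤ Y := by
    rw [hY]
    linarith only [Nat.lt_floor_add_one (y₂ * (q * J))]
  have hYu : (Y : ℝ) ≤ y₂ * (q * J) := by
    rw [hY]
    exact Nat.floor_le (by positivity)
  have hnY : (n : ℝ) ≤ 2 ^ Y := by
    have h1 : n ≤ Y := by
      have : (n : ℝ) ≤ Y := by linarith only [hYl, hJa]
      exact_mod_cast this
    calc (n : ℝ) ≤ ((2 ^ n : ℕ) : ℝ) := by exact_mod_cast Nat.lt_two_pow_self.le
      _ = 2 ^ n := by push_cast; ring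
      _ ≤ 2 ^ Y := pow_le_pow_right₀ (by norm_num) h1
  have hmulq : ∀ {x y : ℝ}, x ≤ y → x * q ≤ y * q := fun h => mul_le_mul_of_nonneg_right h hq.le
  have hmulJ : ∀ {x y : ℝ}, x ≤ y → x * (J : ℝ) ≤ y * J := fun h =>
    mul_le_mul_of_nonneg_right h hJ0
  -- the radii
  obtain ⟨z, hz⟩ : ∃ z : ℕ → ℕ → ℕ, z = fun k k' => if u k + 1 / p ≤ u k' ∧ k' ≤ N₃ then
      ⌊(t + u k' * q) * J⌋₊ - ⌊(t + u k * q) * J⌋₊ else
      ⌊(t + A' * q) * J⌋₊ - ⌊(t + u k * q) * J⌋₊ := ⟨_, rfl⟩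
  have hpos' : ∀ k ≤ N₃, 0 ≤ t + u k * q := fun k hk => by
    have := hmulq (show -K ≤ u k by linarith only [(hvb k hk).1])
    linarith only [this, ht0]
  have hflo : ∀ x y : ℝ, 0 ≤ t + x * q → x + 1 / p ≤ y →
      r' * q * J ≤ ((⌊(t + y * q) * J⌋₊ - ⌊(t + x * q) * J⌋₊ : ℕ) : ℝ) := by
    intro x y hx hxy
    have h1 : (⌊(t + x * q) * J⌋₊ : ℝ) ≤ (t + x * q) * J := Nat.floor_le (mul_nonneg hx hJ0)
    have h2 := (Nat.lt_floor_add_one ((t + y * q) * (J : ℝ))).le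
    have hpp : (0 : ℝ) < 1 / p := by positivity
    have h3 : ⌊(t + x * q) * J⌋₊ ≤ ⌊(t + y * q) * J⌋₊ :=
      Nat.floor_le_floor (hmulJ (by linarith only [hmulq (show x ≤ y by linarith only [hxy, hpp])]))
    rw [Nat.cast_sub h3]
    have h4 : (x + 1 / p) * q * J ≤ y * q * J := hmulJ (hmulq hxy)
    have h5 : 1 / (p : ℝ) = 2 * r' := by rw [hr']; ring
    rw [h5] at h4
    have h6 : (x + 2 * r') * q * J = x * q * J + 2 * (r' * (q * J)) := by ring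
    have h7 : r' * q * J = r' * (q * J) := by ring
    rw [h6] at h4
    rw [h7]
    linarith only [h1, h2, h4, hJc]
  have hz1 : ∀ k ≤ N₃, ∀ k' ≤ N₃, r' * q * J ≤ z k k' ∧
      z k k' ≤ ⌊(t + A' * q) * J⌋₊ - ⌊(t + u k * q) * J⌋₊ := by
    intro k hk k' hk'
    rw [hz]
    beta_reduce
    split_ifs with h1
    · refine ⟨hflo _ _ (hpos' k hk) h1.1, Nat.sub_le_sub_right (Nat.floor_le_floor
        (hmulJ ?_)) _⟩
      have := hmulq (show u k' ≤ A' by linarith only [(hvb k' hk').2, hgp])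
      linarith only [this]
    · exact ⟨hflo _ _ (hpos' k hk) (by linarith only [(hvb k hk).2, hpg]), le_rfl⟩
  have hz2 : ∀ k ≤ N₃, ∀ k' ≤ N₃, u k + 1 / p ≤ u k' → z k k' = ⌊(t + u k' * q) * J⌋₊ -
      ⌊(t + u k * q) * J⌋₊ := fun k _ k' hk' h => by
    rw [hz]
    exact if_pos ⟨h, hk'⟩
  obtain ⟨B, e, h, pp, b, g, gc, gT, g₀, G, H, Th, TH, Gt, Ht, hBA, hBP, E, W, -, hnum⟩ :=
    hA1 z hz1
  have hwe : (fun k => ⌊(t + u k * q) * J⌋₊) = w := funext fun k => (hw k).symm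
  have hap := apR_of R hy'0 hεb hAK (N₁ := N₁) (v := u)
    (fun k hk => by
      have h1 := hub k hk
      exact ⟨by linarith only [h1.1], by linarith only [h1.2, hgp]⟩)
    hmn (Sc := Sc) hst hJb E hnum
  rw [← hA, ← hcl, hwe] at E hap
  refine ⟨N₃, z, B, e, h, pp, g, gc, gT, g₀, G, H, Th, TH, Gt, Ht, hBA, hBP, ?_, ?_, ?_, ?_⟩
  · exact E
  · exact hap.1
  · exact hap.2
  · intro ω hω k hk
    have hnk' := hnk k hk
    obtain ⟨n', hn'⟩ : ∃ n', n' = (nk N₁ - nk k) * p := ⟨_, rfl⟩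
    have hnn : nk k * p + n' = nk N₁ * p := by
      rw [hn', ← add_mul]
      congr 1
      omega
    have hn'1 : 1 ≤ n' := by
      rw [hn']
      exact Nat.mul_pos (by omega) (by omega)
    have hn'R : (n' : ℝ) = ((nk N₁ : ℝ) - nk k) * p := by
      rw [hn', Nat.cast_mul, Nat.cast_sub hnk'.le]
    obtain ⟨f, hf⟩ : ∃ f : ℕ → ℕ, f = fun j => if j = 0 then k else if j = n' then N₁ else
      N₁ + 1 + (nk k * p + j) := ⟨_, rfl⟩
    have hf0 : f 0 = k := by rw [hf]; rfl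
    have hfn : f n' = N₁ := by
      rw [hf]
      beta_reduce
      rw [if_neg (by omega), if_pos rfl]
    have hf1 : ∀ j, j ≠ 0 → j ≠ n' → f j = N₁ + 1 + (nk k * p + j) := fun j h1 h2 => by
      rw [hf]
      beta_reduce
      rw [if_neg h1, if_neg h2]
    have hfu : ∀ j ≤ n', u (f j) = u k + j / p := by
      intro j hj
      rcases Nat.eq_zero_or_pos j with rfl | h0
      · rw [hf0, Nat.cast_zero, zero_div, add_zero]
      · by_cases hjn : j = n'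
        · rw [hjn, hfn, hu N₁ le_rfl, hu k hk.le, hn'R]
          field_simp
          ring
        · rw [hf1 j (by omega) hjn, v2 _ (by omega), hu k hk.le]
          push_cast
          field_simp
          ring
    have hfN : ∀ j ≤ n', f j ≤ N₃ := by
      intro j hj
      rcases Nat.eq_zero_or_pos j with rfl | h0
      · rw [hf0]
        omega
      · by_cases hjn : j = n'
        · rw [hjn, hfn]
          omega
        · rw [hf1 j (by omega) hjn]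
          omega
    have ch : ChF u N₃ n' p (u k) K f := by
      refine ⟨hp0, hfN, hfu, fun j hj => ?_⟩
      have h1 := hvb (f j) (hfN j hj)
      rw [abs_le]
      exact ⟨by linarith only [h1.1], by linarith only [h1.2, hgp, hAK]⟩
    have hzf : ∀ j < n', z (f j) (f (j + 1)) = ⌊(t + u (f (j + 1)) * q) * J⌋₊ -
        ⌊(t + u (f j) * q) * J⌋₊ := fun j hj =>
      hz2 _ (ch.fN j hj.le) _ (ch.fN (j + 1) hj) (ch.le hj).le
    have hgr := htl R W (f := f) (n := n') (p := p) (k₀ := k) (Y := Y) (β := β) (y₂ := y₂) ch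
      (by omega) (by
        have h1 := hub k hk.le
        rw [abs_le]
        exact ⟨by linarith only [h1.1], by linarith only [h1.2, hgp, hAK]⟩) hzf hε hY
      (by linarith only [hCBy, hy', hy₂0]) (by linarith only [hy₁y, hy']) (by
        linarith only [hεb, hy', hy₂0]) hp1 (by linarith only [hJa, hn0]) (by
        refine le_trans ?_ hnY
        have : n' ≤ n := by omega
        exact_mod_cast this) (fun l hl => hβ1 l (by omega)) (fun j hj => by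
        rw [hfu j hj.le]
        have h1 : (0 : ℝ) ≤ j / p := by positivity
        have h2 : 0 ≤ (Sl 2 - Sl 1) * (j / p) := mul_nonneg (by linarith only [hs12]) h1
        show (Sl 1 - Sl 2) * (u k + j / p - u k) ≤ 0
        linarith only [h2]) ω hω
    rw [hf0, hfn] at hgr
    refine hgr.trans (mul_le_mul_of_nonneg_right (pow_le_pow_right₀ (by norm_num) ?_)
      (by positivity))
    refine Nat.le_floor ?_
    push_cast
    have h3 : (Ca : ℝ) * Y ≤ Ca * (y₂ * (q * J)) := mul_le_mul_of_nonneg_left hYu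
      (by linarith only [hCaR])
    have h4 : 0 ≤ y * (q * J) := by positivity
    have h5 : (Ca + 1) * y₂ * (q * J) = Ca * (y₂ * (q * J)) + y₂ * (q * J) := by ring
    have h6 : 0 ≤ y₂ * (q * J) := by positivity
    rw [hy₂a] at h5
    linarith only [h3, h4, h5, h6]

end Pool.STV
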