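import Pool.Agent.H14.STV.Rec
import Pool.Agent.H23.D2.Rce

/-!
# The windows of a record, target of any kind

`RecR.wins`: as `RecQ.wins`; `RecR.ratW`, `RecR.lowL`, `RecR.sl1`.
-/

set_option autoImplicit false

namespace Pool.STV

open Finset Real MvPolynomial
open Pool.Agent.H49.Ent Pool.Agent.H32.Dense Pool.STK Pool.KA Pool.KSAT Pool.K2S Pool.PB Pool.S6C
open Pool.GEN Pool.CHT Pool.CHX Pool.ISO Pool.D2R Pool.D2F
open Pool.LBT (LSys Slo Tri ThrOf fl_le' bas_false)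
open Pool.LEV (Law)
open Pool.FLF (Fam.sub)
open Pool.JTN (TgP)
open Pool.PKG (RecQ PtI KdQ Kd)

/-- **The windows of a record.** The main windows `t + v k q`, `k ≤ N₁`, are pairs of the record
with the common radius `t + A' q`; the windows `t + v k q`, `N₁ < k ≤ N₂`, are windows of its chain.
`y`: the loss in units of `q`. -/
theorem RecR.wins (m i S₂ : ℕ) (hi : 1 ≤ i) (hS₂ : 1 ≤ S₂) : ∃ D : ℕ, 1 ≤ D ∧ ∀ Dr : ℕ,
    D ≤ Dr → ∃ C CB : ℝ, 1 ≤ C ∧ 1 ≤ CB ∧ ∀ {S : PCl m}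
    {P P₂ : List (Fin m) × Fin m → ℝ → ℝ → ℝ} {θ θ₂ : ℝ} {c : ℕ → Fin m} {Pt : ℝ → ℝ → ℝ}
    {L T : ℕ → ℝ → ℝ → ℝ} {Sl : ℕ → ℝ} {kd : ℕ → Kd} {S₀ N : ℕ} {A V : ℕ → ℝ} {N' : ℕ}
    {V' : ℕ → ℝ} {Eb e₂ K ε q t : ℝ},
    RecR S P P₂ θ θ₂ c i Pt L T Sl kd S₀ N A V S₂ N' V' Eb e₂ K ε q t → S₀ ≤ S₂ → 0 ≤ ε →
    ∀ (A' y r' : ℝ) (N₁ N₂ M : ℕ) (v : ℕ → ℝ) (Rg : ℕ → Prop), 1 ≤ K → 0 < y →
    4 * (C * y) ≤ 1 → 4 * (C * ε) ≤ y → 0 < r' → N₁ ≤ N₂ → A' ≤ K →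
    (∀ k ≤ N₁, ∃ j < N, A j = A' ∧ V j = v k) → (∀ k ≤ N₂, -K + 1 ≤ v k ∧ v k < A') →
    (∀ k, N₁ < k → k ≤ N₂ → ∃ j < N', V' j = v k) →
    (∀ l < i, Rg l → kd l = .one ∨ kd l = .thin) →
    ∃ (K₁ : ℝ) (b : ℕ → ℕ → ℝ), 0 < K₁ ∧ ∀ κ : ℝ, 0 < κ → Bas S (fun J F A₀ =>
      ∀ z : ℕ → ℕ → ℕ, (∀ k ≤ N₂, ∀ p ≤ M, r' * q * J ≤ z k p ∧
        z k p ≤ ⌊(t + A' * q) * J⌋₊ - ⌊(t + v k * q) * J⌋₊) →
      ∃ (B : F.Ω → Prop) (gc gT g₀ : ℕ → ℕ → ℕ)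
        (G : ℕ → PtT F → ℕ → MvPolynomial (Option (Fin m)) ℝ)
        (H : ℕ → LnT F → ℕ → MvPolynomial (Option (Fin m)) ℝ)
        (Th : ℕ → PtT F → ℕ → MvPolynomial (Option (Fin m)) ℝ)
        (TH : ℕ → LnT F → ℕ → MvPolynomial (Option (Fin m)) ℝ)
        (Gt : ℕ → PtT F → MvPolynomial (Option (Fin m)) ℝ)
        (Ht : ℕ → LnT F → MvPolynomial (Option (Fin m)) ℝ), Sub B A₀ ∧
        Pe F.p A₀ ≤ K₁ * Pe F.p B ∧
        Wins F c i D Dr N₁ M Rg C (t + A' * q) Eb (y * q) (fun k => t + v k * q)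
          (fun _ => 3 * ε * q)
          (fun k => L i (t + A' * q) (t + v k * q) - 2 * (C * (y * q)))
          (fun _ => y * q) (fun _ => y * q) (fun k l => L l (t + v k * q) (t + v k * q))
          (fun k l => L l (t + A' * q) (t + v k * q)) b κ z B gc gT g₀ G H Th TH Gt Ht ∧
        WinB F c i D Dr N₂ M CB (t + A' * q) Eb (y * q) (fun k => t + v k * q)
          (fun _ => y * q) (fun _ => y * q) (fun k l => L l (t + v k * q) (t + v k * q)) b κ z B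
          g₀ G H) := by
  obtain ⟨D, hD, hcon⟩ := wins_q m i S₂ hi hS₂
  refine ⟨D, hD, fun Dr hDr => ?_⟩
  obtain ⟨C, CB, hC, hCB, hcon⟩ := hcon Dr hDr
  refine ⟨C, CB, hC, hCB, ?_⟩
  intro S P P₂ θ θ₂ c Pt L T Sl kd S₀ N A V N' V' Eb e₂ K ε q t R hS hε A' y r' N₁ N₂ M v Rg hK
    hy hCy hCε hr' hNN hAK hmn hvK hch hRg
  have hPt : L i = Pt := by
    rw [R.lv i le_rfl]
    funext a w
    unfold lvN
    rw [if_neg (lt_irrefl i)]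
  have hbe : ∀ l < i, L l = bet P c l := fun l hl => by
    rw [R.lv l hl.le]
    funext a w
    unfold lvN
    rw [if_pos hl]
  obtain ⟨K₁, b, hK₁, hbas⟩ := hcon (Eb := Eb) (K := K) (ε := ε) (q := q) (t := t) R.thr R.th0
    R.tmh R.inj R.law R.Eb0 R.q0 R.t0 R.t1 (fun l hl x hx => by
      rw [← R.lv l hl]
      exact R.room l hl x hx) hε A' y r' N₁ N₂ M v Rg hK hy hCy hCε hr' hNN hAK (fun k hk => by
      obtain ⟨j, hj, hA, hV⟩ := hmn k hk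
      have := (R.pt j hj).1
      rwa [hA, hV] at this) (fun k hk => by
      rcases Nat.lt_or_ge N₁ k with h | h
      · obtain ⟨j, hj, hV⟩ := hch k h hk
        have := (R.ptc j hj).mono hS
        rwa [hV] at this
      · obtain ⟨j, hj, hA, hV⟩ := hmn k h
        have := (R.pt j hj).2
        rwa [hV] at this) hvK (fun k hk l hl hRl => by
      obtain ⟨j, hj, hA, hV⟩ := hmn k hk
      obtain ⟨h1, h2⟩ := hvK k (by omega)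
      have := (R.winD hj (by rw [hV]; linarith) (by rw [hA, hV]; exact h2) (by rw [hA]; exact hAK)
        (ε' := 3 * ε * q) le_rfl hε hRg).rgh l hl hRl
      rwa [hA, hV] at this)
  refine ⟨K₁, b, hK₁, fun κ hκ => Bas.mono 0 (hbas κ hκ) ?_⟩
  rintro J - F A₀ hA z hz
  obtain ⟨B, gc, gT, g₀, G, H, Th, TH, Gt, Ht, k1, k2, k3, k4⟩ := hA z hz
  rw [hPt]
  refine ⟨B, gc, gT, g₀, G, H, Th, TH, Gt, Ht, k1, k2, k3.lvc (fun k _ l hl => ?_)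
    (fun k _ l hl => ?_), k4.lvc fun k _ l hl => ?_⟩
  · show L l _ _ = _
    rw [R.lv l hl]
  · show L l _ _ = _
    rw [hbe l hl]
  · show L l _ _ = _
    rw [R.lv l hl]

/-- A rational window near a window of the record. -/
theorem RecR.ratW {m : ℕ} {S : PCl m} {P P₂ : List (Fin m) × Fin m → ℝ → ℝ → ℝ} {θ θ₂ : ℝ}
    {c : ℕ → Fin m} {i : ℕ} {Pt : ℝ → ℝ → ℝ} {L T : ℕ → ℝ → ℝ → ℝ} {Sl : ℕ → ℝ} {kd : ℕ → Kd}
    {S₀ N : ℕ} {A V : ℕ → ℝ} {S₂ N' : ℕ} {V' : ℕ → ℝ} {Eb e₂ K ε q t : ℝ}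
    (R : RecR S P P₂ θ θ₂ c i Pt L T Sl kd S₀ N A V S₂ N' V' Eb e₂ K ε q t) {A' x : ℝ}
    (hx : x < A') (hm : (∃ j < N, A j = A' ∧ V j = x) ∨ ∃ j < N', V' j = x) {e : ℝ} (he : 0 < e) :
    ∃ W : ℚ, t + x * q ≤ W ∧ (W : ℝ) ≤ t + A' * q ∧
      ∀ l ≤ i, bet P₂ c l W W ≤ L l (t + x * q) (t + x * q) + e := by
  have hxq : t + x * q < t + A' * q := by
    have := mul_lt_mul_of_pos_right hx R.q0
    linarith
  rcases hm with ⟨j, hj, hA, hV⟩ | ⟨j, hj, hV⟩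
  · obtain ⟨d, hd, h1⟩ := R.rat j hj e he
    rw [hA, hV] at h1
    obtain ⟨W, hW1, hW2⟩ := exists_rat_btwn (show t + x * q < min (t + x * q + d) (t + A' * q) from
      lt_min (by linarith) hxq)
    have hW3 := hW2.le.trans (min_le_left _ _)
    have hW4 := hW2.le.trans (min_le_right _ _)
    exact ⟨W, hW1.le, hW4, (h1 (t + A' * q) W le_rfl (by linarith) hW1.le hW3 hW4).2.1⟩
  · obtain ⟨d, hd, h1⟩ := R.ratc j hj e he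
    rw [hV] at h1
    obtain ⟨W, hW1, hW2⟩ := exists_rat_btwn (show t + x * q < min (t + x * q + d) (t + A' * q) from
      lt_min (by linarith) hxq)
    have hW3 := hW2.le.trans (min_le_left _ _)
    have hW4 := hW2.le.trans (min_le_right _ _)
    exact ⟨W, hW1.le, hW4, h1 W hW1.le hW3⟩

/-- The levels of the ball at a window are at least the window. -/
theorem RecR.lowL {m : ℕ} {S : PCl m} {P P₂ : List (Fin m) × Fin m → ℝ → ℝ → ℝ} {θ θ₂ : ℝ}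
    {c : ℕ → Fin m} {i : ℕ} {Pt : ℝ → ℝ → ℝ} {L T : ℕ → ℝ → ℝ → ℝ} {Sl : ℕ → ℝ} {kd : ℕ → Kd}
    {S₀ N : ℕ} {A V : ℕ → ℝ} {S₂ N' : ℕ} {V' : ℕ → ℝ} {Eb e₂ K ε q t : ℝ}
    (R : RecR S P P₂ θ θ₂ c i Pt L T Sl kd S₀ N A V S₂ N' V' Eb e₂ K ε q t) {x : ℝ}
    (hm : (∃ j < N, V j = x) ∨ ∃ j < N', V' j = x) (h0 : 0 ≤ t + x * q) (h1 : t + x * q ≤ 1) :
    ∀ l ≤ i, t + x * q ≤ L l (t + x * q) (t + x * q) := by
  intro l hl
  rw [R.lv l hl]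
  unfold lvN
  split_ifs with h
  · exact R.thr.low _ _ _ h0 le_rfl h1
  · rcases hm with ⟨j, hj, hV⟩ | ⟨j, hj, hV⟩
    · obtain ⟨ρ, vs, e, e₀, E, sg, Q, d1, -⟩ := (R.pt j hj).2
      rw [hV] at d1
      exact d1.self.low
    · obtain ⟨ρ, vs, e, e₀, E, sg, Q, d1, -⟩ := R.ptc j hj
      rw [hV] at d1
      exact d1.self.low

/-- The slopes are at least one. -/
theorem RecR.sl1 {m : ℕ} {S : PCl m} {P P₂ : List (Fin m) × Fin m → ℝ → ℝ → ℝ} {θ θ₂ : ℝ}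
    {c : ℕ → Fin m} {i : ℕ} {Pt : ℝ → ℝ → ℝ} {L T : ℕ → ℝ → ℝ → ℝ} {Sl : ℕ → ℝ} {kd : ℕ → Kd}
    {S₀ N : ℕ} {A V : ℕ → ℝ} {S₂ N' : ℕ} {V' : ℕ → ℝ} {Eb e₂ K ε q t : ℝ}
    (R : RecR S P P₂ θ θ₂ c i Pt L T Sl kd S₀ N A V S₂ N' V' Eb e₂ K ε q t) :
    ∀ l ≤ i, 1 ≤ Sl l := by
  intro l hl
  rcases Nat.lt_or_ge l i with h | h
  · have h1 := R.kd l h
    unfold KdQ at h1
    split at h1
    · exact h1.ge
    · exact h1.1.le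
    · linarith [h1.1]
  · have h1 : l = i := by omega
    rw [h1]
    exact R.s1

end Pool.STV
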